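import Pool.Agent.TH561.AD.Exact

/-!
# Sums of `q`-th powers times powers of the loop value
-/

set_option autoImplicit false

namespace Pool.Agent.TH561.VC

open Pool.Agent.H891R2.Jones Pool.Agent.TH561 Pool.Agent.TH561.PK Pool.Agent.TH561.FP
  Pool.Agent.TH561.AD Finset LaurentPolynomial

section res2

variable {R : Type*} [CommRing R]

/-- all exponents are congruent to `r` modulo two -/
def Res2 (f : R[T;T⁻¹]) (r : ℤ) : Prop := ∀ n, f.coeff n ≠ 0 → (2 : ℤ) ∣ n - r

theorem Res2.mul {f g : R[T;T⁻¹]} {r s : ℤ} (hf : Res2 f r) (hg : Res2 g s) : Res2 (f * g) (r + s) := by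
  intro n hn
  classical
  have h := AddMonoidAlgebra.support_coeff_mul_subset f g (Finsupp.mem_support_iff.2 hn)
  rw [Finset.mem_add] at h
  obtain ⟨a, ha, b, hb, hab⟩ := h
  have h1 := hf a (Finsupp.mem_support_iff.1 ha)
  have h2 := hg b (Finsupp.mem_support_iff.1 hb)
  omega

theorem res2_T (n : ℤ) : Res2 (T n : R[T;T⁻¹]) n := by
  intro k hk
  rw [T_apply] at hk
  have : n = k := by
    by_contra hne
    exact hk (if_neg hne)
  omega

theorem Res2.congr {f : R[T;T⁻¹]} {r s : ℤ} (hf : Res2 f r) (h : (2 : ℤ) ∣ r - s) : Res2 f s := by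
  intro n hn
  have := hf n hn
  omega

theorem Res2.pow {f : R[T;T⁻¹]} (hf : Res2 f 0) : ∀ n : ℕ, Res2 (f ^ n) 0
  | 0 => by
    have := res2_T (R := R) 0
    simpa using this
  | n+1 => by
    have := (Res2.pow hf n).mul hf
    rw [pow_succ]
    simpa using this

theorem Res2.sum {ι : Type*} (S : Finset ι) (f : ι → R[T;T⁻¹]) (r : ℤ) (h : ∀ i ∈ S, Res2 (f i) r) :
    Res2 (∑ i ∈ S, f i) r := by
  intro n hn
  rw [AddMonoidAlgebra.coeff_sum, Finset.sum_apply'] at hn
  obtain ⟨i, hi, hne⟩ := Finset.exists_ne_zero_of_sum_ne_zero hn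
  exact h i hi n hne

end res2

section alg

variable (p : ℕ) [hp : Fact p.Prime]

theorem res2_dF : Res2 (dF (ZMod p)) 0 := by
  intro n hn
  have := res4_dF n hn
  omega

/-- the algebraic core -/
theorem alg_const {q N : ℕ} (hq2 : 2 ≤ q) (hNq : N ≤ q)
    (u : ℕ → (ZMod p)[T;T⁻¹]) (hu : ∀ j, Res2 (u j) 0)
    (h : ∀ c : ℤ, 2 * (q : ℤ) ≤ |c| →
      (∑ n ∈ range N, (u n) ^ q * (dF (ZMod p)) ^ n).coeff c = 0) :
    ∀ n ∈ range N, ∃ c : ZMod p, u n = C c := by
  classical
  have ht : ∀ s, ∃ t, u s ≠ 0 → Top (u s) t := by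
    intro s
    by_cases h : u s = 0
    · exact ⟨0, fun h' => absurd h h'⟩
    · obtain ⟨t, ht⟩ := exists_top (u s) h
      exact ⟨t, fun _ => ht⟩
  have hb : ∀ s, ∃ t, u s ≠ 0 → Bot (u s) t := by
    intro s
    by_cases h : u s = 0
    · exact ⟨0, fun h' => absurd h h'⟩
    · obtain ⟨t, ht⟩ := exists_bot (u s) h
      exact ⟨t, fun _ => ht⟩
  choose t ht using ht
  choose b hb using hb
  have hq0 : q ≠ 0 := by omega
  have hdb : Bot (dF (ZMod p)) (-2) := by
    unfold PK.Bot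
    rw [invert_dF, neg_neg]
    exact top_dF
  have htop : ∀ s, u s ≠ 0 → Top ((u s) ^ q * (dF (ZMod p)) ^ s) (q * t s + s * 2) :=
    fun s hs => ((ht s hs).pow q).mul (top_dF.pow s)
  have hbot : ∀ s, u s ≠ 0 → Bot ((u s) ^ q * (dF (ZMod p)) ^ s) (q * b s + s * (-2)) :=
    fun s hs => ((hb s hs).pow q).mul (hdb.pow s)
  have hne : ∀ s, (u s) ^ q * (dF (ZMod p)) ^ s ≠ 0 → u s ≠ 0 := by
    intro s h h'
    apply h
    rw [h', zero_pow hq0, zero_mul]
  have hzero : ∀ s, u s = 0 → (u s) ^ q * (dF (ZMod p)) ^ s = 0 := by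
    intro s h'
    rw [h', zero_pow hq0, zero_mul]
  have hqz : (0 : ℤ) < q := by omega
  have hsep : ∀ i j : ℕ, i < N → j < N → ∀ x : ℤ, (i : ℤ) - j = q * x → i = j := by
    intro i j hi hj x hx
    have hx0 : x = 0 := by
      by_contra hcon
      rcases lt_or_gt_of_ne hcon with h1 | h1
      · have : (q : ℤ) * x ≤ q * (-1) := mul_le_mul_of_nonneg_left (by omega) hqz.le
        omega
      · have : (q : ℤ) * 1 ≤ q * x := mul_le_mul_of_nonneg_left (by omega) hqz.le
        omega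
    rw [hx0, mul_zero] at hx
    omega
  intro n0 hn0
  by_cases hne0 : u n0 = 0
  · exact ⟨0, by rw [hne0, map_zero]⟩
  have key1 : (q : ℤ) * t n0 + n0 * 2 < 2 * q := by
    obtain ⟨c1, h1, h2⟩ := sum_top (range N) (fun s => (u s) ^ q * (dF (ZMod p)) ^ s)
      (fun s => q * t s + s * 2) (by
        intro s _
        by_cases h : u s = 0
        · left; exact hzero s h
        · right; exact htop s h) (by
        intro i hi j hj hfi hfj hij
        rw [Finset.mem_range] at hi hj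
        obtain ⟨k1, hk1⟩ := hu i _ (ht i (hne i hfi)).1
        obtain ⟨k2, hk2⟩ := hu j _ (ht j (hne j hfj)).1
        refine hsep i j hi hj (k2 - k1) ?_
        have h4 : (q : ℤ) * t i + i * 2 = q * t j + j * 2 := hij
        linarith [congrArg (fun z => (q : ℤ) * z) hk1, congrArg (fun z => (q : ℤ) * z) hk2]) hn0
          ((htop n0 hne0).ne_zero)
    by_contra hcon
    push Not at hcon
    have h1' : (q : ℤ) * t n0 + n0 * 2 ≤ c1 := h1
    have h3 : 2 * (q : ℤ) ≤ c1 := le_trans hcon h1'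
    exact h2 (h c1 (le_trans h3 (le_abs_self c1)))
  have key2 : -(2 * (q : ℤ)) < (q : ℤ) * b n0 + n0 * (-2) := by
    obtain ⟨c1, h1, h2⟩ := sum_bot (range N) (fun s => (u s) ^ q * (dF (ZMod p)) ^ s)
      (fun s => q * b s + s * (-2)) (by
        intro s _
        by_cases h : u s = 0
        · left; exact hzero s h
        · right; exact hbot s h) (by
        intro i hi j hj hfi hfj hij
        rw [Finset.mem_range] at hi hj
        obtain ⟨k1, hk1⟩ := hu i _ (hb i (hne i hfi)).coeff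
        obtain ⟨k2, hk2⟩ := hu j _ (hb j (hne j hfj)).coeff
        refine hsep i j hi hj (k1 - k2) ?_
        have h4 : (q : ℤ) * b i + i * (-2) = q * b j + j * (-2) := hij
        linarith [congrArg (fun z => (q : ℤ) * z) hk1, congrArg (fun z => (q : ℤ) * z) hk2]) hn0
          (fun h' => by
            have h3 := (hbot n0 hne0).coeff
            rw [h'] at h3
            exact h3 (by simp))
    by_contra hcon
    push Not at hcon
    have h1' : c1 ≤ (q : ℤ) * b n0 + n0 * (-2) := h1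
    have h3 : 2 * (q : ℤ) ≤ -c1 := by linarith
    exact h2 (h c1 (le_trans h3 (neg_le_abs c1)))
  have h3 : b n0 ≤ t n0 := (hb n0 hne0).le (ht n0 hne0).1
  obtain ⟨k1, hk1⟩ := hu n0 _ (ht n0 hne0).1
  obtain ⟨k2, hk2⟩ := hu n0 _ (hb n0 hne0).coeff
  have hn0' : (0 : ℤ) ≤ n0 := Int.natCast_nonneg n0
  have h5 : t n0 ≤ 0 := by
    by_contra hcon
    have h6 : (q : ℤ) * 2 ≤ q * t n0 := mul_le_mul_of_nonneg_left (by omega) hqz.le
    linarith
  have h6 : 0 ≤ b n0 := by
    by_contra hcon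
    have h6 : (q : ℤ) * b n0 ≤ q * (-2) := mul_le_mul_of_nonneg_left (by omega) hqz.le
    linarith
  have h7 : t n0 = 0 := by omega
  have h8 : b n0 = 0 := by omega
  obtain ⟨c, _, hc⟩ := mono_of_top_bot (f := u n0) (t := 0) (by rw [← h7]; exact ht n0 hne0)
    (by rw [← h8]; exact hb n0 hne0)
  exact ⟨c, by rw [hc, T_zero, mul_one]⟩

end alg

end Pool.Agent.TH561.VC
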