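import Pool.Agent.TH561.VC.Graph

/-!
# The number of components of a cyclic cover of a graph: the count
-/

set_option autoImplicit false

namespace Pool.Agent.TH561.VC

open Finset Relation

section count

variable {P E : Type} {src tgt : E → P} {v : E → ℤ} {R : P → P → Prop}

theorem Pot.congr {x y : P} (h : EqvGen (Bs src tgt R) x y) (hx : Pot src tgt v R x) :
    Pot src tgt v R y := by
  obtain ⟨H, h1, h2⟩ := hx
  exact ⟨H, fun e he => h1 e (EqvGen.trans _ _ _ h he),
    fun a b hab ha => h2 a b hab (EqvGen.trans _ _ _ h ha)⟩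

variable (src tgt v R)

/-- the component has a potential -/
def PotC (c : Quot (Bs src tgt R)) : Prop := Pot src tgt v R c.out

/-- number of components with a potential -/
noncomputable def zz : ℕ := Nat.card {c : Quot (Bs src tgt R) // PotC src tgt v R c}

/-- number of components without a potential -/
noncomputable def ee : ℕ := Nat.card {c : Quot (Bs src tgt R) // ¬ PotC src tgt v R c}

theorem card_base [Finite P] : Nat.card (Quot (Bs src tgt R)) = zz src tgt v R + ee src tgt v R := by
  classical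
  have : Finite (Quot (Bs src tgt R)) := Quot.finite _
  have : Fintype (Quot (Bs src tgt R)) := Fintype.ofFinite _
  unfold zz ee
  rw [Nat.card_eq_fintype_card, Nat.card_eq_fintype_card, Nat.card_eq_fintype_card,
    Fintype.card_subtype_compl, Fintype.card_subtype]
  have := Finset.card_filter_le (univ : Finset (Quot (Bs src tgt R))) (fun c => PotC src tgt v R c)
  rw [Finset.card_univ] at this
  omega

/-- the projection -/
def pr (q : ℕ) : Quot (Cv src tgt v R q) → Quot (Bs src tgt R) :=
  Quot.map Prod.fst (fun _ _ h => by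
    rcases h with ⟨e, h1, h2, _⟩ | ⟨h, _⟩
    · exact Or.inl ⟨e, h1, h2⟩
    · exact Or.inr h)

variable {src tgt v R}

/-- the map of the sheets to the fibre -/
noncomputable def toF {q : ℕ} (c : Quot (Bs src tgt R)) (t : ZMod q) :
    {d : Quot (Cv src tgt v R q) // pr src tgt v R q d = c} :=
  ⟨Quot.mk _ (c.out, t), by
    show Quot.mk _ c.out = c
    exact Quot.out_eq c⟩

theorem toF_surj {q : ℕ} (c : Quot (Bs src tgt R)) :
    Function.Surjective (toF (v := v) (q := q) c) := by
  rintro ⟨d, hd⟩
  obtain ⟨⟨x, g⟩, rfl⟩ := Quot.exists_rep d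
  have h1 : Quot.mk (Bs src tgt R) x = Quot.mk _ c.out := by
    rw [Quot.out_eq]
    exact hd
  obtain ⟨t, ht⟩ := lift_path (v := v) (q := q) (Quot.eqvGen_exact h1) g
  refine ⟨t, Subtype.ext ?_⟩
  exact (Quot.eqvGen_sound ht).symm

theorem fib_pot {q : ℕ} [NeZero q] (c : Quot (Bs src tgt R)) (hc : PotC src tgt v R c) :
    Nat.card {d : Quot (Cv src tgt v R q) // pr src tgt v R q d = c} = q := by
  obtain ⟨H, h1, h2⟩ := hc
  have hinj : Function.Injective (toF (v := v) (q := q) c) := by
    intro t t' h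
    have h3 : Quot.mk (Cv src tgt v R q) (c.out, t) = Quot.mk _ (c.out, t') := congrArg Subtype.val h
    have h4 := pot_inv h1 h2 (Quot.eqvGen_exact h3) (EqvGen.refl _)
    simp only at h4
    exact (sub_left_injective h4).symm
  have h3 := Nat.card_eq_of_bijective _ (⟨hinj, toF_surj c⟩ : Function.Bijective (toF (v := v) (q := q) c))
  rw [← h3, Nat.card_eq_fintype_card, ZMod.card]

theorem fib_one {p k : ℕ} [hp : Fact p.Prime] (hk : 1 ≤ k) [Fintype E]
    (hv : ∑ e, (v e).natAbs < p) (c : Quot (Bs src tgt R)) (hc : ¬ PotC src tgt v R c) :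
    Nat.card {d : Quot (Cv src tgt v R (p ^ k)) // pr src tgt v R (p ^ k) d = c} = 1 := by
  have hq0 : NeZero (p ^ k) := ⟨pow_ne_zero _ hp.out.ne_zero⟩
  have hdvd : p ∣ p ^ k := dvd_pow_self p (by omega)
  set x0 := c.out with hx0
  have htr : ∀ {y : P} {t t' : ZMod (p ^ k)}, EqvGen (Cv src tgt v R (p ^ k)) (x0, 0) (y, t) →
      EqvGen (Cv src tgt v R (p ^ k)) (x0, 0) (y, t') → EqvGen (Cv src tgt v R (p ^ k)) (x0, 0) (x0, t - t') := by
    intro y t t' h h'
    have h1 := shift_path (-t) h
    have h2 := shift_path (-t') h'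
    simp only [zero_add, add_neg_cancel] at h1 h2
    have h3 := EqvGen.trans _ _ _ h1 (EqvGen.symm _ _ h2)
    have h4 := shift_path t h3
    simp only [neg_add_cancel] at h4
    have h5 : -t' + t = t - t' := by ring
    rwa [h5] at h4
  -- a unit among the returns
  obtain ⟨u, hu1, hu2⟩ : ∃ u : ZMod (p ^ k), EqvGen (Cv src tgt v R (p ^ k)) (x0, 0) (x0, u) ∧
      ZMod.castHom hdvd (ZMod p) u ≠ 0 := by
    by_contra hcon
    push Not at hcon
    apply hc
    classical
    let h : P → ZMod p := fun y => if hy : ∃ t, EqvGen (Cv src tgt v R (p ^ k)) (x0, 0) (y, t)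
      then ZMod.castHom hdvd (ZMod p) hy.choose else 0
    have key : ∀ y t, EqvGen (Cv src tgt v R (p ^ k)) (x0, 0) (y, t) →
        h y = ZMod.castHom hdvd (ZMod p) t := by
      intro y t hy
      have he : ∃ t, EqvGen (Cv src tgt v R (p ^ k)) (x0, 0) (y, t) := ⟨t, hy⟩
      have h1 : h y = ZMod.castHom hdvd (ZMod p) he.choose := dif_pos he
      rw [h1, ← sub_eq_zero, ← map_sub]
      exact hcon _ (htr he.choose_spec hy)
    refine lift_pot p hv (h := h) ?_ ?_
    · intro e he
      obtain ⟨t, ht⟩ := lift_path (v := v) (q := p ^ k) he 0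
      have h1 : EqvGen (Cv src tgt v R (p ^ k)) (x0, 0) (tgt e, t + v e) :=
        EqvGen.trans _ _ _ ht (EqvGen.rel _ _ (Or.inl ⟨e, rfl, rfl, rfl⟩))
      rw [key _ _ ht, key _ _ h1, map_add, map_intCast]
    · intro x y hxy hx
      obtain ⟨t, ht⟩ := lift_path (v := v) (q := p ^ k) hx 0
      have h1 : EqvGen (Cv src tgt v R (p ^ k)) (x0, 0) (y, t) :=
        EqvGen.trans _ _ _ ht (EqvGen.rel _ _ (Or.inr ⟨hxy, rfl⟩))
      rw [key _ _ ht, key _ _ h1]
  -- the unit
  have hunit : IsUnit u := by
    have h1 : (u.val : ZMod (p ^ k)) = u := ZMod.natCast_zmod_val u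
    rw [← h1, ZMod.isUnit_iff_coprime]
    apply Nat.Coprime.pow_right
    rw [Nat.coprime_comm, (hp.out.coprime_iff_not_dvd)]
    intro h2
    apply hu2
    rw [← h1, map_natCast]
    exact (ZMod.natCast_eq_zero_iff _ _).2 h2
  have hmul : ∀ n : ℕ, EqvGen (Cv src tgt v R (p ^ k)) (x0, 0) (x0, (n : ZMod (p ^ k)) * u) := by
    intro n
    induction n with
    | zero => simp only [Nat.cast_zero, zero_mul]; exact EqvGen.refl _
    | succ n ih =>
      have h1 := shift_path ((n : ZMod (p ^ k)) * u) hu1
      simp only [zero_add] at h1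
      have h2 := EqvGen.trans _ _ _ ih h1
      have h3 : u + (n : ZMod (p ^ k)) * u = ((n + 1 : ℕ) : ZMod (p ^ k)) * u := by push_cast; ring
      rwa [h3] at h2
  have hall : ∀ t : ZMod (p ^ k), EqvGen (Cv src tgt v R (p ^ k)) (x0, 0) (x0, t) := by
    intro t
    obtain ⟨u', hu'⟩ := hunit.exists_left_inv
    have h1 := hmul (t * u').val
    rw [ZMod.natCast_zmod_val, mul_assoc, hu', mul_one] at h1
    exact h1
  have hsub : Subsingleton {d : Quot (Cv src tgt v R (p ^ k)) // pr src tgt v R (p ^ k) d = c} := by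
    constructor
    intro d d'
    obtain ⟨t, rfl⟩ := toF_surj c d
    obtain ⟨t', rfl⟩ := toF_surj c d'
    apply Subtype.ext
    exact Quot.eqvGen_sound (EqvGen.trans _ _ _ (EqvGen.symm _ _ (hall t)) (hall t'))
  have hne : Nonempty {d : Quot (Cv src tgt v R (p ^ k)) // pr src tgt v R (p ^ k) d = c} := ⟨toF c 0⟩
  exact Nat.card_eq_one_iff_unique.2 ⟨hsub, hne⟩

/-- the number of components of the cover -/
theorem card_cover [Finite P] {p k : ℕ} [hp : Fact p.Prime] (hk : 1 ≤ k) [Fintype E]
    (hv : ∑ e, (v e).natAbs < p) :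
    Nat.card (Quot (Cv src tgt v R (p ^ k))) = p ^ k * zz src tgt v R + ee src tgt v R := by
  classical
  have hq0 : NeZero (p ^ k) := ⟨pow_ne_zero _ hp.out.ne_zero⟩
  have : Finite (Quot (Bs src tgt R)) := Quot.finite _
  have : Fintype (Quot (Bs src tgt R)) := Fintype.ofFinite _
  have hf : Finite (P × ZMod (p ^ k)) := Finite.instProd
  have : Finite (Quot (Cv src tgt v R (p ^ k))) := Quot.finite _
  rw [Nat.card_congr (Equiv.sigmaFiberEquiv (pr src tgt v R (p ^ k))).symm, Nat.card_sigma]
  have h1 : ∀ c : Quot (Bs src tgt R), Nat.card {d : Quot (Cv src tgt v R (p ^ k)) //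
      pr src tgt v R (p ^ k) d = c} = if PotC src tgt v R c then p ^ k else 1 := by
    intro c
    split_ifs with hc
    · exact fib_pot c hc
    · exact fib_one hk hv c hc
  rw [Finset.sum_congr rfl (fun c _ => h1 c), Finset.sum_ite, Finset.sum_const, Finset.sum_const]
  unfold zz ee
  rw [Nat.card_eq_fintype_card, Nat.card_eq_fintype_card, Fintype.card_subtype, Fintype.card_subtype,
    smul_eq_mul, smul_eq_mul, mul_one, mul_comm]

/-- a component without a potential contains an arc with nonzero voltage, and these arcs are distinct -/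
theorem ee_le [Finite P] [Fintype E] : ee src tgt v R ≤ ∑ e, (v e).natAbs := by
  classical
  have hex : ∀ c : {c : Quot (Bs src tgt R) // ¬ PotC src tgt v R c},
      ∃ e : E, v e ≠ 0 ∧ Quot.mk (Bs src tgt R) (src e) = c.1 := by
    rintro ⟨c, hc⟩
    by_contra hcon
    push Not at hcon
    apply hc
    refine ⟨fun _ => 0, ?_, fun _ _ _ _ => rfl⟩
    intro e he
    by_cases h0 : v e = 0
    · rw [h0]; ring
    · exfalso
      apply hcon e h0
      have h1 := Quot.eqvGen_sound he
      rw [Quot.out_eq] at h1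
      exact h1.symm
  choose f hf1 hf2 using hex
  have hinj : Function.Injective (fun c => (⟨f c, hf1 c⟩ : {e : E // v e ≠ 0})) := by
    intro c c' h
    have h1 : f c = f c' := congrArg Subtype.val h
    apply Subtype.ext
    rw [← hf2 c, ← hf2 c', h1]
  have h1 := Nat.card_le_card_of_injective _ hinj
  refine h1.trans ?_
  rw [Nat.card_eq_fintype_card, Fintype.card_subtype, Finset.card_eq_sum_ones, Finset.sum_filter]
  refine Finset.sum_le_sum fun e _ => ?_
  split_ifs with h
  · omega
  · omega

end count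

end Pool.Agent.TH561.VC
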