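import Pool.Agent.TH561.VC.Defs
import Pool.Agent.TH561.VC.Count
import Pool.Agent.TH561.VC.Alg

/-!
# The bracket of a cyclic cover
-/

set_option autoImplicit false

namespace Pool.Agent.TH561.VC

open Pool.Agent.H891R2.Jones Pool.Agent.TH561 Pool.Agent.TH561.PK Pool.Agent.TH561.FP
  Pool.Agent.TH561.AD Finset Relation LaurentPolynomial

section cov

variable {P : Type} (q : ℕ) (D : Diagram P) (v : Fin D.arcs.length → ℤ)

/-- the smoothing of the crossing `i` -/
def sm (s : Fin D.crossings.length → Bool) (i : Fin D.crossings.length) (x y : P) : Prop :=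
  if s i then (x = (D.crossings[i]).a ∧ y = (D.crossings[i]).b) ∨
      (x = (D.crossings[i]).c ∧ y = (D.crossings[i]).d)
    else (x = (D.crossings[i]).b ∧ y = (D.crossings[i]).c) ∨
      (x = (D.crossings[i]).d ∧ y = (D.crossings[i]).a)

/-- the smoothings -/
def Rs (s : Fin D.crossings.length → Bool) (x y : P) : Prop := ∃ i, sm D s i x y

/-- starts of the arcs -/
def sr (e : Fin D.arcs.length) : P := (D.arcs[e]).1

/-- ends of the arcs -/
def tg (e : Fin D.arcs.length) : P := (D.arcs[e]).2

theorem mem_arcs (x y : P) : (x, y) ∈ D.arcs ↔ ∃ e, x = sr D e ∧ y = tg D e := by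
  rw [List.mem_iff_get]
  constructor
  · rintro ⟨e, he⟩
    refine ⟨e, ?_, ?_⟩
    · show x = (D.arcs.get e).1
      rw [he]
    · show y = (D.arcs.get e).2
      rw [he]
  · rintro ⟨e, h1, h2⟩
    exact ⟨e, Prod.ext h1.symm h2.symm⟩

theorem joined_eq (s : Fin D.crossings.length → Bool) : D.Joined s = Bs (sr D) (tg D) (Rs D s) := by
  funext x y
  apply propext
  unfold Diagram.Joined Bs
  rw [mem_arcs]
  rfl

/-- the relation of the cover for a general state -/
def JS (S : Fin q → Fin D.crossings.length → Bool) (x y : P × ZMod q) : Prop :=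
  (∃ e, x.1 = sr D e ∧ y.1 = tg D e ∧ y.2 = x.2 + (v e : ZMod q)) ∨
    ∃ j : Fin q, x.2 = ((j : ℕ) : ZMod q) ∧ y.2 = ((j : ℕ) : ZMod q) ∧ Rs D (S j) x.1 y.1

theorem len_cr : (cover q D v).crossings.length = q * D.crossings.length := List.length_ofFn

/-- the pair of a sheet and a crossing -/
def ix : Fin (cover q D v).crossings.length ≃ Fin q × Fin D.crossings.length :=
  (finCongr (len_cr q D v)).trans finProdFinEquiv.symm

/-- the lift of a crossing to a sheet -/
def gC (j : Fin q) (i : Fin D.crossings.length) : Crossing (P × ZMod q) :=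
  (D.crossings[i]).map (fun x => (x, ((j : ℕ) : ZMod q)))

/-- the lift of an arc to a sheet -/
def gA (j : Fin q) (e : Fin D.arcs.length) : (P × ZMod q) × (P × ZMod q) :=
  ((sr D e, ((j : ℕ) : ZMod q)), (tg D e, ((j : ℕ) : ZMod q) + (v e : ZMod q)))

theorem cross_get (i : Fin (cover q D v).crossings.length) : (cover q D v).crossings[i] =
    gC q D (ix q D v i).1 (ix q D v i).2 :=
  List.getElem_ofFn (f := fun i : Fin (q * D.crossings.length) => gC q D i.divNat i.modNat) _

theorem exists_sheet [NeZero q] (g : ZMod q) : ∃ j : Fin q, ((j : ℕ) : ZMod q) = g :=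
  ⟨⟨g.val, ZMod.val_lt g⟩, ZMod.natCast_zmod_val g⟩

theorem mem_cover_arcs [NeZero q] (x y : P × ZMod q) : (x, y) ∈ (cover q D v).arcs ↔
    ∃ e, x.1 = sr D e ∧ y.1 = tg D e ∧ y.2 = x.2 + (v e : ZMod q) := by
  show (x, y) ∈ List.ofFn (fun i : Fin (q * D.arcs.length) => gA q D v i.divNat i.modNat) ↔ _
  rw [List.mem_ofFn]
  constructor
  · rintro ⟨i, hi⟩
    have h1 := congrArg Prod.fst hi
    have h2 := congrArg Prod.snd hi
    simp only [gA] at h1 h2
    refine ⟨i.modNat, ?_, ?_, ?_⟩
    · rw [← h1]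
    · rw [← h2]
    · rw [← h1, ← h2]
  · rintro ⟨e, h1, h2, h3⟩
    obtain ⟨j, hj⟩ := exists_sheet q x.2
    refine ⟨finProdFinEquiv (j, e), ?_⟩
    have h4 : (finProdFinEquiv (j, e)).divNat = j :=
      congrArg Prod.fst (finProdFinEquiv.symm_apply_apply (j, e))
    have h5 : (finProdFinEquiv (j, e)).modNat = e :=
      congrArg Prod.snd (finProdFinEquiv.symm_apply_apply (j, e))
    rw [h4, h5]
    refine Prod.ext (Prod.ext h1.symm hj) (Prod.ext h2.symm ?_)
    show ((j : ℕ) : ZMod q) + (v e : ZMod q) = y.2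
    rw [hj, h3]

theorem joined_cover [NeZero q] (S : Fin q → Fin D.crossings.length → Bool) :
    (cover q D v).Joined (fun i => S (ix q D v i).1 (ix q D v i).2) = JS q D v S := by
  funext x y
  apply propext
  unfold Diagram.Joined JS
  rw [mem_cover_arcs]
  refine or_congr Iff.rfl ?_
  have key : ∀ (j : Fin q) (i : Fin D.crossings.length) (c : Crossing (P × ZMod q)),
      c = gC q D j i →
      ((if S j i then (x = c.a ∧ y = c.b) ∨ (x = c.c ∧ y = c.d)
        else (x = c.b ∧ y = c.c) ∨ (x = c.d ∧ y = c.a)) ↔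
      (x.2 = ((j : ℕ) : ZMod q) ∧ y.2 = ((j : ℕ) : ZMod q) ∧ sm D (S j) i x.1 y.1)) := by
    intro j i c hc
    subst hc
    obtain ⟨x1, x2⟩ := x
    obtain ⟨y1, y2⟩ := y
    unfold sm gC Crossing.map
    simp only [Prod.mk.injEq]
    split_ifs <;> tauto
  constructor
  · rintro ⟨i, hi⟩
    have h1 := (key (ix q D v i).1 (ix q D v i).2 _ (cross_get q D v i)).1 hi
    exact ⟨(ix q D v i).1, h1.1, h1.2.1, (ix q D v i).2, h1.2.2⟩
  · rintro ⟨j, h1, h2, i, h3⟩
    refine ⟨(ix q D v).symm (j, i), ?_⟩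
    have h4 := cross_get q D v ((ix q D v).symm (j, i))
    have h5 : ix q D v ((ix q D v).symm (j, i)) = (j, i) := Equiv.apply_symm_apply _ _
    rw [h5] at h4
    have h6 := (key j i _ h4).2 ⟨h1, h2, h3⟩
    show if S ((ix q D v) ((ix q D v).symm (j, i))).1 ((ix q D v) ((ix q D v).symm (j, i))).2 then _ else _
    rw [h5]
    exact h6

/-- the number of circles -/
noncomputable def lp (S : Fin q → Fin D.crossings.length → Bool) : ℕ := Nat.card (Quot (JS q D v S))

theorem lp_rot [NeZero q] (S : Fin q → Fin D.crossings.length → Bool) :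
    lp q D v (S ∘ finRotate q) = lp q D v S := by
  unfold lp
  let e : P × ZMod q ≃ P × ZMod q := Equiv.prodCongr (Equiv.refl P) (Equiv.addRight 1)
  apply Nat.card_congr
  refine Quot.congr e ?_
  rintro ⟨x1, x2⟩ ⟨y1, y2⟩
  show JS q D v (S ∘ finRotate q) (x1, x2) (y1, y2) ↔ JS q D v S (x1, x2 + 1) (y1, y2 + 1)
  unfold JS
  simp only
  have hrot : ∀ j : Fin q, (((finRotate q j : Fin q) : ℕ) : ZMod q) = ((j : ℕ) : ZMod q) + 1 := by
    intro j
    rw [finRotate_val, ZMod.natCast_mod]
    push_cast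
    rfl
  refine or_congr ?_ ?_
  · constructor
    · rintro ⟨e, h1, h2, h3⟩
      exact ⟨e, h1, h2, by rw [h3]; ring⟩
    · rintro ⟨e, h1, h2, h3⟩
      refine ⟨e, h1, h2, ?_⟩
      linear_combination h3
  · constructor
    · rintro ⟨j, h1, h2, h3⟩
      exact ⟨finRotate q j, by rw [hrot, h1], by rw [hrot, h2], h3⟩
    · rintro ⟨j, h1, h2, h3⟩
      have hj : finRotate q ((finRotate q).symm j) = j := Equiv.apply_symm_apply _ _
      have h4 := hrot ((finRotate q).symm j)
      rw [hj] at h4
      refine ⟨(finRotate q).symm j, ?_, ?_, ?_⟩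
      · rw [h4] at h1
        exact add_right_cancel h1
      · rw [h4] at h2
        exact add_right_cancel h2
      · show Rs D (S (finRotate q ((finRotate q).symm j))) x1 y1
        rw [hj]
        exact h3

theorem js_const [NeZero q] (s : Fin D.crossings.length → Bool) :
    JS q D v (fun _ => s) = Cv (sr D) (tg D) v (Rs D s) q := by
  funext x y
  apply propext
  unfold JS Cv
  refine or_congr Iff.rfl ?_
  constructor
  · rintro ⟨j, h1, h2, h3⟩
    exact ⟨h3, by rw [h1, h2]⟩
  · rintro ⟨h1, h2⟩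
    obtain ⟨j, hj⟩ := exists_sheet q x.2
    exact ⟨j, hj.symm, by rw [h2, hj], h1⟩

/-- the weight of a state of the cover -/
theorem weight_cover (S : Fin q → Fin D.crossings.length → Bool) :
    Diagram.weight (fun i => S (ix q D v i).1 (ix q D v i).2) = ∑ j, Diagram.weight (S j) := by
  unfold Diagram.weight
  rw [Equiv.sum_comp (ix q D v) (fun x => if S x.1 x.2 then (1 : ℤ) else -1), Fintype.sum_prod_type]

/-- the states of the cover -/
def stE : (Fin q → Fin D.crossings.length → Bool) ≃ (Fin (cover q D v).crossings.length → Bool) :=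
  (Equiv.curry _ _ _).symm.trans ((ix q D v).symm.arrowCongr (Equiv.refl Bool))

theorem stE_apply (S : Fin q → Fin D.crossings.length → Bool) :
    stE q D v S = fun i => S (ix q D v i).1 (ix q D v i).2 := rfl

theorem dl_bracket {Q : Type} [Finite Q] [Nonempty Q] (D' : Diagram Q) :
    dl * D'.bracket = ∑ s : Fin D'.crossings.length → Bool, T (Diagram.weight s) * dl ^ (D'.loops s) := by
  unfold Diagram.bracket
  rw [Finset.mul_sum]
  refine Finset.sum_congr rfl fun s _ => ?_
  have h1 : 1 ≤ D'.loops s := by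
    unfold Diagram.loops
    have : Finite (Quot (D'.Joined s)) := Quot.finite _
    have : Nonempty (Quot (D'.Joined s)) := ⟨Quot.mk _ (Classical.arbitrary Q)⟩
    exact Nat.card_pos
  obtain ⟨n, hn⟩ : ∃ n, D'.loops s = n + 1 := ⟨D'.loops s - 1, by omega⟩
  rw [hn, Nat.add_sub_cancel, pow_succ]
  unfold dl
  ring

theorem bracket_cover [Finite P] [Nonempty P] [NeZero q] : dl * (cover q D v).bracket =
    ∑ S : Fin q → Fin D.crossings.length → Bool, T (∑ j, Diagram.weight (S j)) * dl ^ (lp q D v S) := by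
  have : Finite (P × ZMod q) := Finite.instProd
  have : Nonempty (P × ZMod q) := inferInstance
  rw [dl_bracket, ← Equiv.sum_comp (stE q D v)]
  refine Finset.sum_congr rfl fun S _ => ?_
  rw [stE_apply, weight_cover]
  congr 2
  unfold Diagram.loops lp
  rw [joined_cover]

end cov

end Pool.Agent.TH561.VC
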