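import Pool.Agent.H891R2.Jones.Diagram

/-!
# Cyclic covers of (virtual) link diagrams

A `Diagram` (`Pool.Agent.H891R2.Jones.Diagram`) is a list of oriented arcs and crossings between marked
points; no planarity is assumed, so diagrams are virtual link diagrams, or diagrams of links in
thickened oriented surfaces (marked points `a, b, c, d` of a crossing in counterclockwise order).
-/

set_option autoImplicit false

namespace Pool.Agent.TH561.VC

open Pool.Agent.H891R2.Jones

variable {P : Type}

/-- The cyclic cover of degree `q` of the diagram `D` with voltages `v`, an integer for each arc.  Its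
marked points are the pairs `(x, j)` of a marked point `x` of `D` and a sheet `j ∈ ℤ/q`.  Every crossing
of `D` is lifted to each of the `q` sheets.  An arc of `D` from `x` to `y` with voltage `v` is lifted to
the `q` arcs from `(x, j)` to `(y, j + v)`.  (The numbers `i < q n` are the pairs of a sheet
`i.divNat < q` and an index `i.modNat < n`.) -/
def cover (q : ℕ) (D : Diagram P) (v : Fin D.arcs.length → ℤ) : Diagram (P × ZMod q) where
  arcs := List.ofFn (fun i : Fin (q * D.arcs.length) =>
    (((D.arcs[i.modNat]).1, ((i.divNat : ℕ) : ZMod q)),
      ((D.arcs[i.modNat]).2, ((i.divNat : ℕ) : ZMod q) + (v i.modNat : ZMod q))))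
  crossings := List.ofFn (fun i : Fin (q * D.crossings.length) =>
    (D.crossings[i.modNat]).map (fun x => (x, ((i.divNat : ℕ) : ZMod q))))

end Pool.Agent.TH561.VC
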