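import Pool.Agent.TH561.VC.Main
import Pool.Agent.H891R2.Jones.Closed

/-!
# Cyclic covers of diagrams: the theorems
-/

set_option autoImplicit false

namespace Pool.Agent.TH561.VC

open Pool.Agent.H891R2.Jones Pool.Agent.TH561 Pool.Agent.TH561.PK Pool.Agent.TH561.FP
  Pool.Agent.TH561.AD Finset Relation LaurentPolynomial

section final

variable {P : Type} (D : Diagram P) (v : Fin D.arcs.length → ℤ)

theorem red_cf (p : ℕ) (f : ℤ[T;T⁻¹]) (n : ℤ) : (red p f).coeff n = ((f.coeff n : ℤ) : ZMod p) := by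
  unfold red
  rw [AddMonoidAlgebra.coeff_mapRingHom]
  rfl

theorem dl_coeff (f : ℤ[T;T⁻¹]) (n : ℤ) : (dl * f).coeff n = -(f.coeff (n - 2)) - f.coeff (n + 2) := by
  have h1 : dl * f = -(T 2 * f) - T (-2) * f := by unfold dl; ring
  rw [h1, AddMonoidAlgebra.coeff_sub, AddMonoidAlgebra.coeff_neg, Finsupp.sub_apply, Finsupp.neg_apply,
    T_mul_coeff, T_mul_coeff, sub_neg_eq_add]

theorem UZ_ge [Finite P] {n : ℕ} (hn : ∑ e, (v e).natAbs < n) : UZ D v n = 0 := by
  unfold UZ
  rw [Finset.sum_eq_zero, mul_zero]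
  intro s hs
  rw [Finset.mem_filter] at hs
  have := es_le D v s
  omega

theorem consts [Finite P] [Nonempty P] {p k : ℕ} [hp : Fact p.Prime] (hk : 1 ≤ k) (hp2 : p ≠ 2)
    (hv : ∑ e, (v e).natAbs < p)
    (hf : ∀ n : ℤ, 2 * ((p ^ k : ℕ) : ℤ) - 2 ≤ |n| → (p : ℤ) ∣ (cover (p ^ k) D v).fPoly.coeff n) :
    ∀ n, ∃ c : ZMod p, red p (UZ D v n) = C c := by
  have hpq : p ≤ p ^ k := Nat.le_self_pow (by omega) p
  have h2 := hp.out.two_le
  intro n
  rcases Nat.lt_or_ge n (∑ e, (v e).natAbs + 1) with hn | hn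
  · refine alg_const p (q := p ^ k) (N := ∑ e, (v e).natAbs + 1) (by omega) (by omega)
      (fun n => red p (UZ D v n)) (res2_UZ D v p) ?_ n (Finset.mem_range.2 hn)
    intro c hc
    rw [← cover_form D v hk hp2 hv (Nat.lt_succ_self _), red_cf, dl_coeff]
    have h3 : (p : ℤ) ∣ -((cover (p ^ k) D v).fPoly.coeff (c - 2)) - (cover (p ^ k) D v).fPoly.coeff (c + 2) := by
      apply dvd_sub
      · apply dvd_neg.2
        apply hf
        have := abs_sub_abs_le_abs_sub c 2
        have h4 : |(2 : ℤ)| = 2 := by norm_num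
        omega
      · apply hf
        have := abs_sub_abs_le_abs_sub c (-2)
        have h4 : |(-2 : ℤ)| = 2 := by norm_num
        have h5 : c - -2 = c + 2 := by ring
        rw [h5] at this
        omega
    exact (ZMod.intCast_zmod_eq_zero_iff_dvd _ p).2 h3
  · exact ⟨0, by rw [UZ_ge D v (by omega), map_zero, map_zero]⟩

theorem cover_of_const [Finite P] [Nonempty P] {p : ℕ} [hp : Fact p.Prime] (hp2 : p ≠ 2)
    (hv : ∑ e, (v e).natAbs < p) (hc : ∀ n, ∃ c : ZMod p, red p (UZ D v n) = C c) {k : ℕ} (hk : 1 ≤ k) :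
    red p (cover (p ^ k) D v).fPoly = red p D.fPoly := by
  have h1 : red p (dl * (cover (p ^ k) D v).fPoly) = red p (dl * D.fPoly) := by
    rw [cover_form D v hk hp2 hv (Nat.lt_succ_self _), base_form D v (Nat.lt_succ_self _), map_sum]
    refine Finset.sum_congr rfl fun n _ => ?_
    rw [map_mul, map_pow, red_dl]
    obtain ⟨c, hc⟩ := hc n
    rw [hc, ← map_pow, ZMod.pow_card_pow]
  rw [map_mul, map_mul, red_dl] at h1
  exact mul_left_cancel₀ top_dF.ne_zero h1

theorem int_const [Fintype P] {p : ℕ} (hbig : 2 ^ (D.crossings.length + Fintype.card P) < p)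
    (hc : ∀ n, ∃ c : ZMod p, red p (UZ D v n) = C c) (p' : ℕ) :
    ∀ n, ∃ c : ZMod p', red p' (UZ D v n) = C c := by
  intro n
  obtain ⟨c, hc⟩ := hc n
  have h1 : ∀ m : ℤ, m ≠ 0 → (UZ D v n).coeff m = 0 := by
    intro m hm
    have h2 := red_cf p (UZ D v n) m
    rw [hc] at h2
    have h3 : (C c : (ZMod p)[T;T⁻¹]).coeff m = 0 := by
      rw [← mul_one (C c), ← T_zero, ← single_eq_C_mul_T]
      show (Finsupp.single (0 : ℤ) c) m = 0
      rw [Finsupp.single_apply, if_neg (fun h' => hm h'.symm)]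
    rw [h3] at h2
    have h4 := (ZMod.intCast_zmod_eq_zero_iff_dvd _ p).1 h2.symm
    exact Int.eq_zero_of_abs_lt_dvd h4 (lt_of_le_of_lt (UZ_bd D v n m) (by exact_mod_cast hbig))
  refine ⟨(((UZ D v n).coeff 0 : ℤ) : ZMod p'), ?_⟩
  apply LaurentPolynomial.ext
  intro m
  rw [red_cf]
  rw [← mul_one (C _), ← T_zero, ← single_eq_C_mul_T]
  show _ = (Finsupp.single (0 : ℤ) _) m
  rw [Finsupp.single_apply]
  split_ifs with h
  · rw [h]
  · rw [h1 m (fun h' => h h'.symm), Int.cast_zero]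

theorem red_eq_iff (p : ℕ) [Fact p.Prime] (f g : ℤ[T;T⁻¹]) :
    red p f = red p g ↔ ∀ n, (p : ℤ) ∣ (f - g).coeff n := by
  rw [← sub_eq_zero, ← map_sub]
  constructor
  · intro h n
    have h3 := red_cf p (f - g) n
    rw [h] at h3
    have h4 : (((f - g).coeff n : ℤ) : ZMod p) = 0 := by rw [← h3]; simp
    exact (ZMod.intCast_zmod_eq_zero_iff_dvd _ p).1 h4
  · intro h
    apply LaurentPolynomial.ext
    intro n
    rw [red_cf, (ZMod.intCast_zmod_eq_zero_iff_dvd _ p).2 (h n)]
    simp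

end final

section closed

variable {P : Type} [DecidableEq P]

/-- the number of occurrences -/
def ct {α : Type} [DecidableEq α] (a : α) (l : List α) : ℕ := l.count a

theorem ct_eq_sum {α : Type} [DecidableEq α] (a : α) (l : List α) :
    ct a l = (l.map (fun b => if b = a then 1 else 0)).sum := count_eq_sum a l

theorem ct_append {α : Type} [DecidableEq α] (a : α) (l l' : List α) :
    ct a (l ++ l') = ct a l + ct a l' := List.count_append

theorem cnt (q : ℕ) {n : ℕ} (a : Fin n → P) (b : Fin n → Fin q → ZMod q)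
    (hb : ∀ i, Function.Bijective (b i)) (x : P) (g : ZMod q) :
    ct (x, g) (List.ofFn (fun i : Fin (q * n) => (a i.modNat, b i.modNat i.divNat))) =
      ct x (List.ofFn a) := by
  rw [ct_eq_sum, ct_eq_sum, List.map_ofFn, List.map_ofFn, List.sum_ofFn, List.sum_ofFn,
    ← Equiv.sum_comp finProdFinEquiv, Fintype.sum_prod_type, Finset.sum_comm]
  refine Finset.sum_congr rfl fun i _ => ?_
  have h1 : ∀ j : Fin q, ((fun z : P × ZMod q => if z = (x, g) then (1 : ℕ) else 0) ∘
      (fun i : Fin (q * n) => (a i.modNat, b i.modNat i.divNat))) (finProdFinEquiv (j, i)) =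
      if a i = x ∧ b i j = g then 1 else 0 := by
    intro j
    have h4 : (finProdFinEquiv (j, i)).divNat = j :=
      congrArg Prod.fst (finProdFinEquiv.symm_apply_apply (j, i))
    have h5 : (finProdFinEquiv (j, i)).modNat = i :=
      congrArg Prod.snd (finProdFinEquiv.symm_apply_apply (j, i))
    simp only [Function.comp_apply, h4, h5, Prod.mk.injEq]
  rw [Finset.sum_congr rfl (fun j _ => h1 j)]
  show _ = if a i = x then 1 else 0
  obtain ⟨j0, hj0⟩ := (hb i).2 g
  rw [Finset.sum_eq_single j0]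
  · simp [hj0]
  · intro j _ hj
    rw [if_neg]
    rintro ⟨_, h⟩
    exact hj ((hb i).1 (h.trans hj0.symm))
  · intro h
    exact absurd (Finset.mem_univ _) h

theorem sheet_bij (q : ℕ) [NeZero q] : Function.Bijective (fun j : Fin q => ((j : ℕ) : ZMod q)) := by
  rw [Fintype.bijective_iff_surjective_and_card]
  exact ⟨exists_sheet q, by rw [Fintype.card_fin, ZMod.card]⟩

theorem sheet_bij' (q : ℕ) [NeZero q] (c : ZMod q) :
    Function.Bijective (fun j : Fin q => ((j : ℕ) : ZMod q) + c) :=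
  (Equiv.addRight c).bijective.comp (sheet_bij q)

theorem map_get {α β : Type} (l : List α) (f : α → β) :
    l.map f = List.ofFn (fun i : Fin l.length => f l[i]) := by
  conv_lhs => rw [← List.ofFn_getElem (xs := l)]
  rw [List.map_ofFn]
  rfl

theorem cnt_arcs_fst (q : ℕ) [NeZero q] (D : Diagram P) (v : Fin D.arcs.length → ℤ) (x : P) (g : ZMod q) :
    ct (x, g) ((cover q D v).arcs.map Prod.fst) = ct x (D.arcs.map Prod.fst) := by
  rw [map_get D.arcs, ← cnt q (fun i : Fin D.arcs.length => (D.arcs[i]).1)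
    (fun _ j => ((j : ℕ) : ZMod q)) (fun _ => sheet_bij q) x g]
  congr 1
  show (List.ofFn _).map _ = _
  rw [List.map_ofFn]
  rfl

theorem cnt_arcs_snd (q : ℕ) [NeZero q] (D : Diagram P) (v : Fin D.arcs.length → ℤ) (x : P) (g : ZMod q) :
    ct (x, g) ((cover q D v).arcs.map Prod.snd) = ct x (D.arcs.map Prod.snd) := by
  rw [map_get D.arcs, ← cnt q (fun i : Fin D.arcs.length => (D.arcs[i]).2)
    (fun i j => ((j : ℕ) : ZMod q) + (v i : ZMod q)) (fun i => sheet_bij' q _) x g]
  congr 1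
  show (List.ofFn _).map _ = _
  rw [List.map_ofFn]
  rfl

theorem cnt_cr (q : ℕ) [NeZero q] (D : Diagram P) (v : Fin D.arcs.length → ℤ)
    (f : ∀ {Q : Type}, Crossing Q → Q)
    (hf : ∀ (g : P → P × ZMod q) (c : Crossing P), f (c.map g) = g (f c)) (x : P) (g : ZMod q) :
    ct (x, g) ((cover q D v).crossings.map f) = ct x (D.crossings.map f) := by
  rw [map_get D.crossings, ← cnt q (fun i : Fin D.crossings.length => f (D.crossings[i]))
    (fun _ j => ((j : ℕ) : ZMod q)) (fun _ => sheet_bij q) x g]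
  congr 1
  show (List.ofFn _).map _ = _
  rw [List.map_ofFn]
  congr 1
  funext i
  exact hf _ _

theorem cover_closed (q : ℕ) [NeZero q] (D : Diagram P) (v : Fin D.arcs.length → ℤ)
    (h : D.IsClosed) : (cover q D v).IsClosed := by
  rintro ⟨x, g⟩
  obtain ⟨h1, h2⟩ := h x
  unfold Diagram.starts at h1 ⊢
  unfold Diagram.ends at h2 ⊢
  change ct x _ = 1 at h1
  change ct x _ = 1 at h2
  show ct (x, g) _ = 1 ∧ ct (x, g) _ = 1
  rw [ct_append, ct_append] at h1 h2 ⊢
  rw [ct_append, ct_append]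
  rw [cnt_arcs_fst, cnt_arcs_snd,
    cnt_cr q D v (fun {Q} (x : Crossing Q) => if x.underFwd then x.a else x.c)
      (fun g c => (apply_ite g _ _ _).symm),
    cnt_cr q D v (fun {Q} (x : Crossing Q) => if x.overFwd then x.b else x.d)
      (fun g c => (apply_ite g _ _ _).symm),
    cnt_cr q D v (fun {Q} (x : Crossing Q) => if x.underFwd then x.c else x.a)
      (fun g c => (apply_ite g _ _ _).symm),
    cnt_cr q D v (fun {Q} (x : Crossing Q) => if x.overFwd then x.d else x.b)
      (fun g c => (apply_ite g _ _ _).symm)]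
  exact ⟨h1, h2⟩

end closed

end Pool.Agent.TH561.VC
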