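import Pool.Agent.TH561.VC.Graph

/-!
# The number of components of a regular cover of a graph
-/

set_option autoImplicit false

namespace Pool.Agent.TH561.VC

open Finset Relation

section graph

variable {P E G : Type} [Group G] (src tgt : E → P) (φ : E → G) (R : P → P → Prop)

/-- the relation of the cover -/
def CvG (x y : P × G) : Prop :=
  (∃ e, x.1 = src e ∧ y.1 = tgt e ∧ y.2 = x.2 * φ e) ∨ (R x.1 y.1 ∧ y.2 = x.2)

variable {src tgt φ R}

theorem shiftG {a b : P × G} (t : G) (hab : EqvGen (CvG src tgt φ R) a b) :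
    EqvGen (CvG src tgt φ R) (a.1, t * a.2) (b.1, t * b.2) := by
  induction hab with
  | rel a b h =>
    apply EqvGen.rel
    rcases h with ⟨e, h1, h2, h3⟩ | ⟨h, h3⟩
    · exact Or.inl ⟨e, h1, h2, by simp only [h3, mul_assoc]⟩
    · exact Or.inr ⟨h, by simp only [h3]⟩
  | refl a => exact EqvGen.refl _
  | symm a b _ ih => exact EqvGen.symm _ _ ih
  | trans a b c _ _ ih1 ih2 => exact EqvGen.trans _ _ _ ih1 ih2

theorem liftG {x y : P} (h : EqvGen (Bs src tgt R) x y) :
    ∀ g : G, ∃ t, EqvGen (CvG src tgt φ R) (x, g) (y, t) := by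
  induction h with
  | rel x y h =>
    intro g
    rcases h with ⟨e, h1, h2⟩ | h
    · exact ⟨g * φ e, EqvGen.rel _ _ (Or.inl ⟨e, h1, h2, rfl⟩)⟩
    · exact ⟨g, EqvGen.rel _ _ (Or.inr ⟨h, rfl⟩)⟩
  | refl x => exact fun g => ⟨g, EqvGen.refl _⟩
  | symm x y h ih =>
    intro g
    obtain ⟨t, ht⟩ := ih 1
    refine ⟨g * t⁻¹, EqvGen.symm _ _ ?_⟩
    have := shiftG (g * t⁻¹) ht
    simp only [mul_one, inv_mul_cancel_right] at this
    exact this
  | trans x y z _ _ ih1 ih2 =>
    intro g
    obtain ⟨t, ht⟩ := ih1 g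
    obtain ⟨s, hs⟩ := ih2 t
    exact ⟨s, EqvGen.trans _ _ _ ht hs⟩

theorem projG {a b : P × G} (hab : EqvGen (CvG src tgt φ R) a b) :
    EqvGen (Bs src tgt R) a.1 b.1 := by
  induction hab with
  | rel a b h =>
    apply EqvGen.rel
    rcases h with ⟨e, h1, h2, _⟩ | ⟨h, _⟩
    · exact Or.inl ⟨e, h1, h2⟩
    · exact Or.inr h
  | refl a => exact EqvGen.refl _
  | symm a b _ ih => exact EqvGen.symm _ _ ih
  | trans a b c _ _ ih1 ih2 => exact EqvGen.trans _ _ _ ih1 ih2

/-- without voltages the sheet does not change -/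
theorem sheetG {x0 : P} (h1 : ∀ e, EqvGen (Bs src tgt R) x0 (src e) → φ e = 1)
    {a b : P × G} (hab : EqvGen (CvG src tgt φ R) a b) (ha : EqvGen (Bs src tgt R) x0 a.1) :
    b.2 = a.2 := by
  induction hab with
  | rel a b h =>
    rcases h with ⟨e, h3, h4, h5⟩ | ⟨h, h5⟩
    · rw [h5, h1 e (by rw [← h3]; exact ha), mul_one]
    · exact h5
  | refl a => rfl
  | symm a b h ih =>
    exact (ih (EqvGen.trans _ _ _ ha (EqvGen.symm _ _ (projG h)))).symm
  | trans a b c h h' ih1 ih2 =>
    rw [ih2 (EqvGen.trans _ _ _ ha (projG h)), ih1 ha]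

variable (src tgt φ R)

/-- the holonomy group -/
def hol (x0 : P) : Subgroup G where
  carrier := {h | EqvGen (CvG src tgt φ R) (x0, 1) (x0, h)}
  one_mem' := EqvGen.refl _
  mul_mem' := by
    intro a b ha hb
    have h1 := shiftG a hb
    simp only [mul_one] at h1
    exact EqvGen.trans _ _ _ ha h1
  inv_mem' := by
    intro a ha
    have h1 := shiftG a⁻¹ ha
    simp only [mul_one, inv_mul_cancel] at h1
    exact EqvGen.symm _ _ h1

/-- the projection -/
def prG : Quot (CvG src tgt φ R) → Quot (Bs src tgt R) :=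
  Quot.map Prod.fst (fun _ _ h => by
    rcases h with ⟨e, h1, h2, _⟩ | ⟨h, _⟩
    · exact Or.inl ⟨e, h1, h2⟩
    · exact Or.inr h)

/-- the number of components over a component -/
noncomputable def fc (c : Quot (Bs src tgt R)) : ℕ :=
  Nat.card {d : Quot (CvG src tgt φ R) // prG src tgt φ R d = c}

theorem fc_index (c : Quot (Bs src tgt R)) : fc src tgt φ R c = (hol src tgt φ R c.out).index := by
  unfold fc
  let F : G ⧸ hol src tgt φ R c.out → {d : Quot (CvG src tgt φ R) // prG src tgt φ R d = c} :=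
    Quotient.lift (fun t => ⟨Quot.mk _ (c.out, t), Quot.out_eq c⟩) (by
      intro a b hab
      have h1 : a⁻¹ * b ∈ hol src tgt φ R c.out := QuotientGroup.leftRel_apply.1 hab
      have h2 := shiftG a (show EqvGen (CvG src tgt φ R) (c.out, 1) (c.out, a⁻¹ * b) from h1)
      simp only [mul_one, mul_inv_cancel_left] at h2
      exact Subtype.ext (Quot.eqvGen_sound h2))
  have hinj : Function.Injective F := by
    intro x y
    induction x using Quotient.inductionOn with | _ a => ?_
    induction y using Quotient.inductionOn with | _ b => ?_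
    intro h
    have h1 : Quot.mk (CvG src tgt φ R) (c.out, a) = Quot.mk _ (c.out, b) := congrArg Subtype.val h
    have h2 := shiftG a⁻¹ (Quot.eqvGen_exact h1)
    simp only [inv_mul_cancel] at h2
    exact Quotient.sound (QuotientGroup.leftRel_apply.2 h2)
  have hsurj : Function.Surjective F := by
    rintro ⟨d, hd⟩
    obtain ⟨⟨x, g⟩, rfl⟩ := Quot.exists_rep d
    have h1 : Quot.mk (Bs src tgt R) x = Quot.mk _ c.out := by
      rw [Quot.out_eq]
      exact hd
    obtain ⟨t, ht⟩ := liftG (φ := φ) (Quot.eqvGen_exact h1) g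
    refine ⟨Quotient.mk _ t, Subtype.ext ?_⟩
    exact (Quot.eqvGen_sound ht).symm
  rw [← Nat.card_eq_of_bijective F ⟨hinj, hsurj⟩]
  rfl

theorem fc_dvd [Finite G] (c : Quot (Bs src tgt R)) : fc src tgt φ R c ∣ Nat.card G := by
  rw [fc_index]
  exact Subgroup.index_dvd_card _

theorem fc_triv [Finite G] (c : Quot (Bs src tgt R))
    (h : ∀ e, EqvGen (Bs src tgt R) c.out (src e) → φ e = 1) : fc src tgt φ R c = Nat.card G := by
  rw [fc_index]
  have h1 : hol src tgt φ R c.out = ⊥ := by
    rw [Subgroup.eq_bot_iff_forall]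
    intro x hx
    exact sheetG (φ := φ) h (show EqvGen (CvG src tgt φ R) (c.out, 1) (c.out, x) from hx) (EqvGen.refl _)
  rw [h1, Subgroup.index_bot]

/-- number of components with trivial holonomy -/
noncomputable def zG : ℕ := Nat.card {c : Quot (Bs src tgt R) // fc src tgt φ R c = Nat.card G}

/-- components with nontrivial holonomy -/
noncomputable def bad [Finite P] : Finset (Quot (Bs src tgt R)) :=
  (Set.toFinite {c : Quot (Bs src tgt R) | fc src tgt φ R c ≠ Nat.card G}).toFinset

theorem mem_bad [Finite P] (c : Quot (Bs src tgt R)) :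
    c ∈ bad src tgt φ R ↔ fc src tgt φ R c ≠ Nat.card G := by
  unfold bad
  rw [Set.Finite.mem_toFinset]
  rfl

/-- number of components with nontrivial holonomy -/
noncomputable def eG [Finite P] : ℕ := (bad src tgt φ R).card

/-- number of components of the cover over components with nontrivial holonomy -/
noncomputable def jG [Finite P] : ℕ := ∑ c ∈ bad src tgt φ R, fc src tgt φ R c

theorem bad_eq [Finite P] [Fintype (Quot (Bs src tgt R))]
    [DecidablePred (fun c : Quot (Bs src tgt R) => ¬ fc src tgt φ R c = Nat.card G)] :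
    bad src tgt φ R = univ.filter (fun c => ¬ fc src tgt φ R c = Nat.card G) := by
  ext c
  rw [mem_bad, Finset.mem_filter]
  simp

theorem zG_eq [Fintype (Quot (Bs src tgt R))]
    [DecidablePred (fun c : Quot (Bs src tgt R) => fc src tgt φ R c = Nat.card G)] :
    zG src tgt φ R = (univ.filter (fun c => fc src tgt φ R c = Nat.card G)).card := by
  unfold zG
  rw [Nat.card_eq_fintype_card (α := {c : Quot (Bs src tgt R) // fc src tgt φ R c = Nat.card G}),
    Fintype.card_subtype]

theorem card_baseG [Finite P] : Nat.card (Quot (Bs src tgt R)) = zG src tgt φ R + eG src tgt φ R := by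
  classical
  have : Finite (Quot (Bs src tgt R)) := Quot.finite _
  have : Fintype (Quot (Bs src tgt R)) := Fintype.ofFinite _
  unfold eG
  rw [bad_eq, zG_eq, Nat.card_eq_fintype_card (α := Quot (Bs src tgt R)),
    Finset.card_filter_add_card_filter_not, Finset.card_univ]

theorem card_coverG [Finite P] [Finite G] :
    Nat.card (Quot (CvG src tgt φ R)) = Nat.card G * zG src tgt φ R + jG src tgt φ R := by
  classical
  have : Finite (Quot (Bs src tgt R)) := Quot.finite _
  have hfin : Fintype (Quot (Bs src tgt R)) := Fintype.ofFinite _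
  have hf : Finite (P × G) := Finite.instProd
  have : Finite (Quot (CvG src tgt φ R)) := Quot.finite _
  rw [Nat.card_congr (Equiv.sigmaFiberEquiv (prG src tgt φ R)).symm, Nat.card_sigma]
  have h1 : ∀ c : Quot (Bs src tgt R), Nat.card {d : Quot (CvG src tgt φ R) //
      prG src tgt φ R d = c} = fc src tgt φ R c := fun c => rfl
  unfold jG
  rw [Finset.sum_congr rfl (fun c _ => h1 c),
    ← Finset.sum_filter_add_sum_filter_not univ (fun c => fc src tgt φ R c = Nat.card G), bad_eq, zG_eq,
    Finset.sum_congr rfl (fun c hc => (Finset.mem_filter.1 hc).2), Finset.sum_const, smul_eq_mul,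
    mul_comm]

theorem eG_le [Finite P] [Finite G] [Fintype E] [DecidableEq G] :
    eG src tgt φ R ≤ (univ.filter (fun e => φ e ≠ 1)).card := by
  classical
  have hex : ∀ c : {c : Quot (Bs src tgt R) // c ∈ bad src tgt φ R},
      ∃ e : E, φ e ≠ 1 ∧ Quot.mk (Bs src tgt R) (src e) = c.1 := by
    rintro ⟨c, hc⟩
    rw [mem_bad] at hc
    by_contra hcon
    push Not at hcon
    apply hc
    apply fc_triv
    intro e he
    by_contra h0
    apply hcon e h0
    have h1 := Quot.eqvGen_sound he
    rw [Quot.out_eq] at h1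
    exact h1.symm
  choose f hf1 hf2 using hex
  have hinj : Function.Injective (fun c => (⟨f c, hf1 c⟩ : {e : E // φ e ≠ 1})) := by
    intro c c' h
    have h1 : f c = f c' := congrArg Subtype.val h
    apply Subtype.ext
    rw [← hf2 c, ← hf2 c', h1]
  have h1 := Fintype.card_le_of_injective _ hinj
  rw [Fintype.card_coe, Fintype.card_subtype] at h1
  exact h1

/-- the number of the summands of a sum of less than `p` powers of `p` -/
def eps (p J : ℕ) : ℕ := if J = 0 then 0 else (J - 1) % (p - 1) + 1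

theorem eps_lt {p J : ℕ} (hJ : J < p) : eps p J = J := by
  unfold eps
  split_ifs with h
  · exact h.symm
  · rw [Nat.mod_eq_of_lt (by omega)]
    omega

theorem eps_sum {p : ℕ} (hp : 2 ≤ p) {ι : Type*} (s : Finset ι) (f : ι → ℕ)
    (hf : ∀ i ∈ s, ∃ a : ℕ, f i = p ^ a) (hs : s.card < p) : eps p (∑ i ∈ s, f i) = s.card := by
  have h1 : (∑ i ∈ s, f i) ≡ s.card [MOD (p - 1)] := by
    rw [Finset.card_eq_sum_ones]
    induction s using Finset.cons_induction with
    | empty => rfl
    | cons i s hi ih =>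
      rw [Finset.sum_cons, Finset.sum_cons]
      apply Nat.ModEq.add
      · obtain ⟨a, ha⟩ := hf i (Finset.mem_cons_self _ _)
        rw [ha]
        have h2 : p ≡ 1 [MOD (p - 1)] := by
          have h3 : (1 : ℕ) ≡ 1 + (p - 1) [MOD (p - 1)] := by
            unfold Nat.ModEq
            rw [Nat.add_mod_right]
          have h4 : 1 + (p - 1) = p := by omega
          rw [h4] at h3
          exact h3.symm
        have h5 := h2.pow a
        rwa [one_pow] at h5
      · refine ih (fun j hj => hf j (Finset.mem_cons_of_mem hj)) ?_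
        rw [Finset.card_cons] at hs
        omega
  by_cases h0 : s.card = 0
  · rw [Finset.card_eq_zero] at h0
    subst h0
    rfl
  · obtain ⟨i, hi⟩ := Finset.card_pos.1 (Nat.pos_of_ne_zero h0)
    have hpos : 1 ≤ ∑ i ∈ s, f i := by
      obtain ⟨a, ha⟩ := hf i hi
      have h2 := Finset.single_le_sum (f := f) (fun _ _ => Nat.zero_le _) hi
      have h3 : 1 ≤ f i := by rw [ha]; exact Nat.one_le_pow _ _ (by omega)
      exact le_trans h3 h2
    unfold eps
    rw [if_neg (by omega)]
    have h2 : ((∑ i ∈ s, f i) - 1) ≡ s.card - 1 [MOD (p - 1)] := by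
      have h3 : ((∑ i ∈ s, f i) - 1) + 1 ≡ (s.card - 1) + 1 [MOD (p - 1)] := by
        rw [Nat.sub_add_cancel hpos, Nat.sub_add_cancel (by omega)]
        exact h1
      exact Nat.ModEq.add_right_cancel' 1 h3
    have h3 : ((∑ i ∈ s, f i) - 1) % (p - 1) = s.card - 1 := by
      have h4 : ((∑ i ∈ s, f i) - 1) % (p - 1) = (s.card - 1) % (p - 1) := h2
      rw [h4, Nat.mod_eq_of_lt (by omega)]
    rw [h3]
    omega

theorem jG_spec [Finite P] [Finite G] {p k : ℕ} (hp : p.Prime) (hG : Nat.card G = p ^ k)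
    (he : eG src tgt φ R < p) :
    jG src tgt φ R < p ^ k ∧ eG src tgt φ R = eps p (jG src tgt φ R) := by
  have hpow : ∀ c, ∃ a : ℕ, a ≤ k ∧ fc src tgt φ R c = p ^ a := by
    intro c
    have h1 := fc_dvd src tgt φ R c
    rw [hG, Nat.dvd_prime_pow hp] at h1
    exact h1
  unfold eG at he ⊢
  unfold jG
  refine ⟨?_, (eps_sum hp.two_le _ _ (fun c _ => ?_) he).symm⟩
  · have h1 : (∑ c ∈ bad src tgt φ R, fc src tgt φ R c) * p ≤ (bad src tgt φ R).card * p ^ k := by
      rw [Finset.sum_mul, ← smul_eq_mul, ← Finset.sum_const]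
      refine Finset.sum_le_sum fun c hc => ?_
      obtain ⟨a, ha1, ha2⟩ := hpow c
      have h2 := (mem_bad src tgt φ R c).1 hc
      rw [hG, ha2] at h2
      have h3 : a < k := by
        rcases Nat.lt_or_eq_of_le ha1 with h | h
        · exact h
        · exact absurd (by rw [h]) h2
      rw [ha2, ← pow_succ]
      exact Nat.pow_le_pow_right hp.pos h3
    have h2 : (bad src tgt φ R).card * p ^ k < p * p ^ k :=
      Nat.mul_lt_mul_of_pos_right he (pow_pos hp.pos k)
    have h3 := lt_of_le_of_lt h1 h2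
    rw [mul_comm p (p ^ k)] at h3
    exact Nat.lt_of_mul_lt_mul_right h3
  · obtain ⟨a, _, ha2⟩ := hpow c
    exact ⟨a, ha2⟩

end graph

end Pool.Agent.TH561.VC
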