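import Pool.Agent.TH561.VC.Final

/-!
# Cyclic covers of diagrams: the main theorem
-/

set_option autoImplicit false

namespace Pool.Agent.TH561.VC

open Pool.Agent.H891R2.Jones Pool.Agent.TH561 Pool.Agent.TH561.PK Pool.Agent.TH561.FP
  Pool.Agent.TH561.AD Finset Relation LaurentPolynomial

theorem mem_cover_cr {P : Type} (q : ℕ) (D : Diagram P) (v : Fin D.arcs.length → ℤ)
    (x : Crossing (P × ZMod q)) (hx : x ∈ (cover q D v).crossings) :
    ∃ c ∈ D.crossings, ∃ j : ZMod q, x = c.map (fun y => (y, j)) := by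
  change x ∈ List.ofFn (fun i : Fin (q * D.crossings.length) => gC q D i.divNat i.modNat) at hx
  rw [List.mem_ofFn] at hx
  obtain ⟨i, hi⟩ := hx
  refine ⟨D.crossings[i.modNat], List.getElem_mem _, ((i.divNat : ℕ) : ZMod q), ?_⟩
  rw [← hi]
  rfl

theorem cover_knot {P : Type} (q : ℕ) [NeZero q] (D : Diagram P) (v : Fin D.arcs.length → ℤ)
    (h : PK.IsKnot (cover q D v)) : PK.IsKnot D := by
  have key : ∀ a b : P × ZMod q, EqvGen (PK.Piece (cover q D v)) a b → EqvGen (PK.Piece D) a.1 b.1 := by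
    intro a b hab
    induction hab with
    | rel a b h =>
      apply EqvGen.rel
      rcases h with h | ⟨x, hx, h⟩
      · left
        rw [mem_cover_arcs] at h
        obtain ⟨e, h1, h2, _⟩ := h
        rw [mem_arcs]
        exact ⟨e, h1, h2⟩
      · right
        obtain ⟨c, hc, j, rfl⟩ := mem_cover_cr q D v x hx
        refine ⟨c, hc, ?_⟩
        rcases h with ⟨h1, h2⟩ | ⟨h1, h2⟩
        · left
          rw [h1, h2]
          exact ⟨rfl, rfl⟩
        · right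
          rw [h1, h2]
          exact ⟨rfl, rfl⟩
    | refl a => exact EqvGen.refl _
    | symm a b _ ih => exact EqvGen.symm _ _ ih
    | trans a b c _ _ ih1 ih2 => exact EqvGen.trans _ _ _ ih1 ih2
  intro x y
  exact key (x, 0) (y, 0) (h _ _)

theorem one_coeff (n : ℤ) (hn : n ≠ 0) : (1 : ℤ[T;T⁻¹]).coeff n = 0 := by
  rw [← T_zero, T_apply, if_neg (fun h' => hn h'.symm)]

theorem cover_theorem {P : Type} [Fintype P] [DecidableEq P] [Nonempty P] (D : Diagram P)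
    (v : Fin D.arcs.length → ℤ) (p k : ℕ) (hp : p.Prime) (hp2 : p ≠ 2) (hk : 1 ≤ k)
    (hv : ∑ e, (v e).natAbs < p) :
    (D.IsClosed → (cover (p ^ k) D v).IsClosed) ∧
    (PK.IsKnot (cover (p ^ k) D v) → PK.IsKnot D) ∧
    ((∀ n : ℤ, 2 * ((p ^ k : ℕ) : ℤ) - 2 ≤ |n| → (p : ℤ) ∣ (cover (p ^ k) D v).fPoly.coeff n) →
      (∀ k' : ℕ, 1 ≤ k' → ∀ n, (p : ℤ) ∣ ((cover (p ^ k') D v).fPoly - D.fPoly).coeff n) ∧
      (2 ^ (D.crossings.length + Fintype.card P) < p →
        ∀ p' k' : ℕ, p'.Prime → p' ≠ 2 → 1 ≤ k' → ∑ e, (v e).natAbs < p' →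
          ∀ n, (p' : ℤ) ∣ ((cover (p' ^ k') D v).fPoly - D.fPoly).coeff n) ∧
      (∀ B : ℕ, 2 ^ (D.crossings.length + Fintype.card P) + B < p →
        (∀ n, |(cover (p ^ k) D v).fPoly.coeff n| ≤ B) → (cover (p ^ k) D v).fPoly = D.fPoly)) ∧
    ((∀ n, (p : ℤ) ∣ ((cover (p ^ k) D v).fPoly - 1).coeff n) → ∀ n, (p : ℤ) ∣ (D.fPoly - 1).coeff n) ∧
    (2 ^ (D.crossings.length + Fintype.card P) + 1 < p → (cover (p ^ k) D v).fPoly = 1 → D.fPoly = 1) := by
  have hpf : Fact p.Prime := ⟨hp⟩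
  have hnz : NeZero (p ^ k) := ⟨pow_ne_zero _ hp.ne_zero⟩
  have main : (∀ n : ℤ, 2 * ((p ^ k : ℕ) : ℤ) - 2 ≤ |n| → (p : ℤ) ∣ (cover (p ^ k) D v).fPoly.coeff n) →
      ∀ n, ∃ c : ZMod p, red p (UZ D v n) = C c := consts D v hk hp2 hv
  have hpq : p ≤ p ^ k := Nat.le_self_pow (by omega) p
  have hp3 : 3 ≤ p := by
    have := hp.two_le
    omega
  have hlarge : ∀ n : ℤ, 2 * ((p ^ k : ℕ) : ℤ) - 2 ≤ |n| → n ≠ 0 := by
    rintro n hn rfl
    rw [abs_zero] at hn
    omega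
  have part3 : ∀ B : ℕ, (∀ n : ℤ, 2 * ((p ^ k : ℕ) : ℤ) - 2 ≤ |n| →
      (p : ℤ) ∣ (cover (p ^ k) D v).fPoly.coeff n) → 2 ^ (D.crossings.length + Fintype.card P) + B < p →
      (∀ n, |(cover (p ^ k) D v).fPoly.coeff n| ≤ B) → (cover (p ^ k) D v).fPoly = D.fPoly := by
    intro B h hB hb
    have h1 := cover_of_const D v hp2 hv (main h) hk
    rw [← sub_eq_zero]
    have h2 : Bd ((cover (p ^ k) D v).fPoly - D.fPoly) (B + 2 ^ (D.crossings.length + Fintype.card P)) := by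
      rw [sub_eq_add_neg]
      exact Bd.add hb (fPoly_bd D).neg
    refine eq_zero_of_red (p := p) h2 (by omega) ?_
    rw [map_sub, h1, sub_self]
  refine ⟨cover_closed (p ^ k) D v, cover_knot (p ^ k) D v, fun h => ⟨fun k' hk' => ?_, fun hbig p' k' hp' hp2' hk' hv' => ?_,
    fun B hB hb => part3 B h hB hb⟩, fun h => ?_, fun hbig h => ?_⟩
  · exact (red_eq_iff p _ _).1 (cover_of_const D v hp2 hv (main h) hk')
  · have : Fact p'.Prime := ⟨hp'⟩
    exact (red_eq_iff p' _ _).1 (cover_of_const D v hp2' hv' (int_const D v hbig (main h) p') hk')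
  · have h1 : ∀ n : ℤ, 2 * ((p ^ k : ℕ) : ℤ) - 2 ≤ |n| →
        (p : ℤ) ∣ (cover (p ^ k) D v).fPoly.coeff n := by
      intro n hn
      have h2 := h n
      rw [AddMonoidAlgebra.coeff_sub, Finsupp.sub_apply, one_coeff n (hlarge n hn), sub_zero] at h2
      exact h2
    rw [← red_eq_iff] at h ⊢
    rw [← cover_of_const D v hp2 hv (main h1) hk, h]
  · have h1 : (cover (p ^ k) D v).fPoly = D.fPoly := by
      refine part3 1 ?_ hbig ?_
      · intro n hn
        rw [h, one_coeff n (hlarge n hn)]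
        exact dvd_zero _
      · intro n
        rw [h]
        exact bd_one n
    rw [← h1, h]

end Pool.Agent.TH561.VC
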