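import Pool.Agent.TH561.VC.GDefs
import Pool.Agent.TH561.VC.GGraph
import Pool.Agent.TH561.VC.Final
import Pool.Agent.TH561.VC.Thm

/-!
# The bracket of a regular cover
-/

set_option autoImplicit false

namespace Pool.Agent.TH561.VC

open Pool.Agent.H891R2.Jones Pool.Agent.TH561 Pool.Agent.TH561.PK Pool.Agent.TH561.FP
  Pool.Agent.TH561.AD Finset Relation LaurentPolynomial

section cov

variable {P G : Type} [Group G] {q : ℕ} (s : Fin q ≃ G) (D : Diagram P) (φ : Fin D.arcs.length → G)

/-- the relation of the cover for a general state -/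
def JG (S : G → Fin D.crossings.length → Bool) (x y : P × G) : Prop :=
  (∃ e, x.1 = sr D e ∧ y.1 = tg D e ∧ y.2 = x.2 * φ e) ∨
    ∃ g : G, x.2 = g ∧ y.2 = g ∧ Rs D (S g) x.1 y.1

theorem len_crG : (regCover s D φ).crossings.length = q * D.crossings.length := List.length_ofFn

/-- the pair of a sheet and a crossing -/
def ixG : Fin (regCover s D φ).crossings.length ≃ G × Fin D.crossings.length :=
  ((finCongr (len_crG s D φ)).trans finProdFinEquiv.symm).trans (Equiv.prodCongr s (Equiv.refl _))

/-- the lift of a crossing to a sheet -/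
def gCG (g : G) (i : Fin D.crossings.length) : Crossing (P × G) :=
  (D.crossings[i]).map (fun x => (x, g))

/-- the lift of an arc to a sheet -/
def gAG (g : G) (e : Fin D.arcs.length) : (P × G) × (P × G) :=
  ((sr D e, g), (tg D e, g * φ e))

theorem cross_getG (i : Fin (regCover s D φ).crossings.length) : (regCover s D φ).crossings[i] =
    gCG D (ixG s D φ i).1 (ixG s D φ i).2 :=
  List.getElem_ofFn (f := fun i : Fin (q * D.crossings.length) => gCG D (s i.divNat) i.modNat) _

theorem mem_cover_arcsG (x y : P × G) : (x, y) ∈ (regCover s D φ).arcs ↔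
    ∃ e, x.1 = sr D e ∧ y.1 = tg D e ∧ y.2 = x.2 * φ e := by
  show (x, y) ∈ List.ofFn (fun i : Fin (q * D.arcs.length) => gAG D φ (s i.divNat) i.modNat) ↔ _
  rw [List.mem_ofFn]
  constructor
  · rintro ⟨i, hi⟩
    have h1 := congrArg Prod.fst hi
    have h2 := congrArg Prod.snd hi
    simp only [gAG] at h1 h2
    refine ⟨i.modNat, ?_, ?_, ?_⟩
    · rw [← h1]
    · rw [← h2]
    · rw [← h1, ← h2]
  · rintro ⟨e, h1, h2, h3⟩
    obtain ⟨j, hj⟩ := s.surjective x.2
    refine ⟨finProdFinEquiv (j, e), ?_⟩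
    have h4 : (finProdFinEquiv (j, e)).divNat = j :=
      congrArg Prod.fst (finProdFinEquiv.symm_apply_apply (j, e))
    have h5 : (finProdFinEquiv (j, e)).modNat = e :=
      congrArg Prod.snd (finProdFinEquiv.symm_apply_apply (j, e))
    rw [h4, h5]
    refine Prod.ext (Prod.ext h1.symm hj) (Prod.ext h2.symm ?_)
    show s j * φ e = y.2
    rw [hj, h3]

theorem joined_coverG (S : G → Fin D.crossings.length → Bool) :
    (regCover s D φ).Joined (fun i => S (ixG s D φ i).1 (ixG s D φ i).2) = JG D φ S := by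
  funext x y
  apply propext
  unfold Diagram.Joined JG
  rw [mem_cover_arcsG]
  refine or_congr Iff.rfl ?_
  have key : ∀ (g : G) (i : Fin D.crossings.length) (c : Crossing (P × G)),
      c = gCG D g i →
      ((if S g i then (x = c.a ∧ y = c.b) ∨ (x = c.c ∧ y = c.d)
        else (x = c.b ∧ y = c.c) ∨ (x = c.d ∧ y = c.a)) ↔
      (x.2 = g ∧ y.2 = g ∧ sm D (S g) i x.1 y.1)) := by
    intro g i c hc
    subst hc
    obtain ⟨x1, x2⟩ := x
    obtain ⟨y1, y2⟩ := y
    unfold sm gCG Crossing.map
    simp only [Prod.mk.injEq]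
    split_ifs <;> tauto
  constructor
  · rintro ⟨i, hi⟩
    have h1 := (key (ixG s D φ i).1 (ixG s D φ i).2 _ (cross_getG s D φ i)).1 hi
    exact ⟨(ixG s D φ i).1, h1.1, h1.2.1, (ixG s D φ i).2, h1.2.2⟩
  · rintro ⟨g, h1, h2, i, h3⟩
    refine ⟨(ixG s D φ).symm (g, i), ?_⟩
    have h4 := cross_getG s D φ ((ixG s D φ).symm (g, i))
    have h5 : ixG s D φ ((ixG s D φ).symm (g, i)) = (g, i) := Equiv.apply_symm_apply _ _
    rw [h5] at h4
    have h6 := (key g i _ h4).2 ⟨h1, h2, h3⟩
    show if S ((ixG s D φ) ((ixG s D φ).symm (g, i))).1 ((ixG s D φ) ((ixG s D φ).symm (g, i))).2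
      then _ else _
    rw [h5]
    exact h6

/-- the number of circles -/
noncomputable def lpG (S : G → Fin D.crossings.length → Bool) : ℕ := Nat.card (Quot (JG D φ S))

theorem lpG_mul (h : G) (S : G → Fin D.crossings.length → Bool) :
    lpG D φ (fun g => S (h * g)) = lpG D φ S := by
  unfold lpG
  let e : P × G ≃ P × G := Equiv.prodCongr (Equiv.refl P) (Equiv.mulLeft h)
  apply Nat.card_congr
  refine Quot.congr e ?_
  rintro ⟨x1, x2⟩ ⟨y1, y2⟩
  show JG D φ (fun g => S (h * g)) (x1, x2) (y1, y2) ↔ JG D φ S (x1, h * x2) (y1, h * y2)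
  unfold JG
  simp only
  refine or_congr ?_ ?_
  · constructor
    · rintro ⟨e, h1, h2, h3⟩
      exact ⟨e, h1, h2, by rw [h3, mul_assoc]⟩
    · rintro ⟨e, h1, h2, h3⟩
      rw [mul_assoc] at h3
      exact ⟨e, h1, h2, mul_left_cancel h3⟩
  · constructor
    · rintro ⟨g, h1, h2, h3⟩
      exact ⟨h * g, by rw [h1], by rw [h2], h3⟩
    · rintro ⟨g, h1, h2, h3⟩
      refine ⟨h⁻¹ * g, ?_, ?_, ?_⟩
      · rw [← h1, inv_mul_cancel_left]
      · rw [← h2, inv_mul_cancel_left]
      · rw [mul_inv_cancel_left]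
        exact h3

theorem jG_const (t : Fin D.crossings.length → Bool) :
    JG D φ (fun _ => t) = CvG (sr D) (tg D) φ (Rs D t) := by
  funext x y
  apply propext
  unfold JG CvG
  refine or_congr Iff.rfl ?_
  constructor
  · rintro ⟨g, h1, h2, h3⟩
    exact ⟨h3, by rw [h1, h2]⟩
  · rintro ⟨h1, h2⟩
    exact ⟨x.2, rfl, h2, h1⟩

/-- the weight of a state of the cover -/
theorem weight_coverG [Fintype G] (S : G → Fin D.crossings.length → Bool) :
    Diagram.weight (fun i => S (ixG s D φ i).1 (ixG s D φ i).2) = ∑ g, Diagram.weight (S g) := by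
  unfold Diagram.weight
  rw [Equiv.sum_comp (ixG s D φ) (fun x => if S x.1 x.2 then (1 : ℤ) else -1), Fintype.sum_prod_type]

/-- the states of the cover -/
def stG : (G → Fin D.crossings.length → Bool) ≃ (Fin (regCover s D φ).crossings.length → Bool) :=
  (Equiv.curry _ _ _).symm.trans ((ixG s D φ).symm.arrowCongr (Equiv.refl Bool))

theorem stG_apply (S : G → Fin D.crossings.length → Bool) :
    stG s D φ S = fun i => S (ixG s D φ i).1 (ixG s D φ i).2 := rfl

theorem bracket_coverG [Finite P] [Nonempty P] [Fintype G] [DecidableEq G] :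
    dl * (regCover s D φ).bracket =
    ∑ S : G → Fin D.crossings.length → Bool, T (∑ g, Diagram.weight (S g)) * dl ^ (lpG D φ S) := by
  have : Finite (P × G) := Finite.instProd
  rw [dl_bracket, ← Equiv.sum_comp (stG s D φ)]
  refine Finset.sum_congr rfl fun S _ => ?_
  rw [stG_apply, weight_coverG]
  congr 2
  unfold Diagram.loops lpG
  rw [joined_coverG]

theorem writhe_coverG [Fintype G] : (regCover s D φ).writhe = Fintype.card G * D.writhe := by
  rw [writhe_eq, ← Equiv.sum_comp (ixG s D φ).symm, Fintype.sum_prod_type]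
  have h1 : ∀ (g : G) (i : Fin D.crossings.length),
      ((regCover s D φ).crossings[(ixG s D φ).symm (g, i)]).sign = (D.crossings[i]).sign := by
    intro g i
    rw [cross_getG]
    have h5 : ixG s D φ ((ixG s D φ).symm (g, i)) = (g, i) := Equiv.apply_symm_apply _ _
    rw [h5]
    rfl
  simp only [h1]
  rw [Finset.sum_const, Finset.card_univ, nsmul_eq_mul, writhe_eq]

end cov

section modp

/-- in characteristic `p` only the constant functions on a `p`-group contribute -/
theorem sum_group {G I : Type} [Group G] [Fintype G] [DecidableEq G] [Fintype I] [DecidableEq I]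
    {S : Type*} [CommRing S] (p : ℕ) [hp : Fact p.Prime] [CharP S p] (hG : IsPGroup p G)
    (F : (G → I) → S) (hF : ∀ (h : G) (f : G → I), F (fun g => f (h * g)) = F f) :
    ∑ f, F f = ∑ i : I, F (fun _ => i) := by
  classical
  have hc : ∑ i : I, F (fun _ => i) = ∑ f ∈ univ.filter (fun f : G → I => ∀ g, f g = f 1), F f := by
    apply Finset.sum_bij (fun i _ => (fun _ => i : G → I))
    · intro i _
      rw [Finset.mem_filter]
      exact ⟨Finset.mem_univ _, fun _ => rfl⟩
    · intro i _ j _ h
      exact congrFun h 1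
    · intro f hf
      rw [Finset.mem_filter] at hf
      exact ⟨f 1, Finset.mem_univ _, funext fun g => (hf.2 g).symm⟩
    · intro i _; rfl
  rw [hc]
  have h1 : ∑ x, F x = ∑ v ∈ univ.image F, ∑ x ∈ univ.filter (fun x => F x = v), v :=
    (Finset.sum_fiberwise_of_maps_to' (fun x _ => Finset.mem_image_of_mem F (Finset.mem_univ x))
      (fun v => v)).symm
  have h2 : ∑ x ∈ univ.filter (fun f : G → I => ∀ g, f g = f 1), F x =
      ∑ v ∈ univ.image F, ∑ x ∈ (univ.filter (fun f : G → I => ∀ g, f g = f 1)).filter (fun x => F x = v), v :=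
    (Finset.sum_fiberwise_of_maps_to' (fun x _ => Finset.mem_image_of_mem F (Finset.mem_univ x))
      (fun v => v)).symm
  rw [h1, h2]
  refine Finset.sum_congr rfl fun v _ => ?_
  rw [Finset.sum_const, Finset.sum_const, nsmul_eq_mul, nsmul_eq_mul]
  congr 1
  rw [CharP.cast_eq_iff_mod_eq S p]
  -- the action on the level set
  let act : MulAction G {f : G → I // F f = v} :=
    { smul := fun h f => ⟨fun g => f.1 (h⁻¹ * g), by rw [hF]; exact f.2⟩
      one_smul := fun f => Subtype.ext (funext fun g => by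
        show f.1 (1⁻¹ * g) = f.1 g
        rw [inv_one, one_mul])
      mul_smul := fun a b f => Subtype.ext (funext fun g => by
        show f.1 ((a * b)⁻¹ * g) = f.1 (b⁻¹ * (a⁻¹ * g))
        rw [mul_inv_rev, mul_assoc]) }
  have h3 := hG.card_modEq_card_fixedPoints {f : G → I // F f = v}
  have h4 : (univ.filter (fun x => F x = v)).card = Nat.card {f : G → I // F f = v} := by
    rw [Nat.card_eq_fintype_card, Fintype.card_subtype]
  have h5 : ((univ.filter (fun f : G → I => ∀ g, f g = f 1)).filter (fun x => F x = v)).card =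
      Nat.card (MulAction.fixedPoints G {f : G → I // F f = v}) := by
    rw [← Fintype.card_coe, ← Nat.card_eq_fintype_card]
    apply Nat.card_congr
    refine ⟨fun f => ⟨⟨f.1, (Finset.mem_filter.1 f.2).2⟩, ?_⟩, fun f => ⟨f.1.1, ?_⟩, fun f => rfl, fun f => rfl⟩
    · intro h
      apply Subtype.ext
      funext g
      show f.1 (h⁻¹ * g) = f.1 g
      have h6 := (Finset.mem_filter.1 (Finset.mem_filter.1 f.2).1).2
      rw [h6 (h⁻¹ * g), h6 g]
    · rw [Finset.mem_filter, Finset.mem_filter]
      refine ⟨⟨Finset.mem_univ _, fun g => ?_⟩, f.1.2⟩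
      have h6 := f.2 g
      have h7 := congrFun (congrArg Subtype.val h6) g
      have h8 : f.1.1 (g⁻¹ * g) = f.1.1 g := h7
      rw [inv_mul_cancel] at h8
      exact h8.symm
  rw [h4, h5]
  exact h3

end modp

end Pool.Agent.TH561.VC
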