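import Pool.Agent.H891R2.Jones.Diagram

/-!
# Regular covers of (virtual) link diagrams

A `Diagram` (`Pool.Agent.H891R2.Jones.Diagram`) is a list of oriented arcs and crossings between marked
points; no planarity is assumed, so diagrams are virtual link diagrams, or diagrams of links in
thickened oriented surfaces (marked points `a, b, c, d` of a crossing in counterclockwise order).
-/

set_option autoImplicit false

namespace Pool.Agent.TH561.VC

open Pool.Agent.H891R2.Jones

variable {P G : Type} [Group G]

/-- The regular cover of the diagram `D` with voltages `φ` in the finite group `G`, an element of `G` for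
each arc; `s` is an enumeration of the elements of `G`.  The marked points of the cover are the pairs
`(x, g)` of a marked point `x` of `D` and a sheet `g ∈ G`.  Every crossing of `D` is lifted to each of
the sheets.  An arc of `D` from `x` to `y` with voltage `h` is lifted to the arcs from `(x, g)` to
`(y, g * h)`.  So `G` acts freely on the cover (on the left).  (The numbers `i < q n` are the pairs of
an index `i.divNat < q` and an index `i.modNat < n`.) -/
def regCover {q : ℕ} (s : Fin q ≃ G) (D : Diagram P) (φ : Fin D.arcs.length → G) : Diagram (P × G) where
  arcs := List.ofFn (fun i : Fin (q * D.arcs.length) =>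
    (((D.arcs[i.modNat]).1, s i.divNat), ((D.arcs[i.modNat]).2, s i.divNat * φ i.modNat)))
  crossings := List.ofFn (fun i : Fin (q * D.crossings.length) =>
    (D.crossings[i.modNat]).map (fun x => (x, s i.divNat)))

end Pool.Agent.TH561.VC
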