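import Pool.Agent.TH561.VC.GCover

/-!
# The normalised bracket of a regular cover modulo `p`
-/

set_option autoImplicit false

namespace Pool.Agent.TH561.VC

open Pool.Agent.H891R2.Jones Pool.Agent.TH561 Pool.Agent.TH561.PK Pool.Agent.TH561.FP
  Pool.Agent.TH561.AD Finset Relation LaurentPolynomial

section main

variable {P G : Type} [Group G] {q : ℕ} (s : Fin q ≃ G) (D : Diagram P) (φ : Fin D.arcs.length → G)

/-- the number of circles with trivial holonomy -/
noncomputable def zsG (t : Fin D.crossings.length → Bool) : ℕ := zG (sr D) (tg D) φ (Rs D t)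

/-- the number of circles with nontrivial holonomy -/
noncomputable def esG [Finite P] (t : Fin D.crossings.length → Bool) : ℕ := eG (sr D) (tg D) φ (Rs D t)

/-- the number of the lifts of the circles with nontrivial holonomy -/
noncomputable def jsG [Finite P] (t : Fin D.crossings.length → Bool) : ℕ := jG (sr D) (tg D) φ (Rs D t)

theorem loops_eqG [Finite P] (t : Fin D.crossings.length → Bool) :
    D.loops t = zsG D φ t + esG D φ t := by
  unfold Diagram.loops zsG esG
  rw [joined_eq, card_baseG (sr D) (tg D) φ (Rs D t)]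

theorem zsG_le [Fintype P] (t : Fin D.crossings.length → Bool) : zsG D φ t ≤ Fintype.card P := by
  have h1 := loops_eqG D φ t
  have h2 : D.loops t ≤ Nat.card P := by
    unfold Diagram.loops
    exact Nat.card_le_card_of_surjective (Quot.mk _) Quot.mk_surjective
  rw [Nat.card_eq_fintype_card] at h2
  omega

theorem lpG_const [Finite P] [Finite G] (t : Fin D.crossings.length → Bool) :
    lpG D φ (fun _ => t) = Nat.card G * zsG D φ t + jsG D φ t := by
  unfold lpG zsG jsG
  rw [jG_const]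
  exact card_coverG _ _ _ _

theorem spec [Finite P] [Finite G] {p k : ℕ} (hp : p.Prime) (hG : Nat.card G = p ^ k)
    (hm : Nat.card {e // φ e ≠ 1} < p) (t : Fin D.crossings.length → Bool) :
    jsG D φ t < p ^ k ∧ esG D φ t = eps p (jsG D φ t) := by
  classical
  have h1 := eG_le (sr D) (tg D) φ (Rs D t)
  rw [← Fintype.card_subtype, ← Nat.card_eq_fintype_card] at h1
  exact jG_spec (sr D) (tg D) φ (Rs D t) hp hG (lt_of_le_of_lt h1 hm)

/-- the coefficients -/
noncomputable def UG [Finite P] (n : ℕ) : ℤ[T;T⁻¹] :=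
  sE ℤ D.writhe * T (-(3 * D.writhe)) *
    ∑ t ∈ univ.filter (fun t : Fin D.crossings.length → Bool => jsG D φ t = n),
      T (Diagram.weight t) * dl ^ zsG D φ t

theorem base_formG [Finite P] [Nonempty P] [Finite G] {p k : ℕ} (hp : p.Prime)
    (hG : Nat.card G = p ^ k) (hm : Nat.card {e // φ e ≠ 1} < p) :
    dl * D.fPoly = ∑ n ∈ range (p ^ k), UG D φ n * dl ^ (eps p n) := by
  rw [fPoly_eq, dl_bracket]
  unfold UG
  simp only [mul_assoc, ← Finset.mul_sum]
  congr 2
  rw [← Finset.sum_fiberwise_of_maps_to (s := univ) (t := range (p ^ k)) (g := fun t => jsG D φ t)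
    (fun t _ => Finset.mem_range.2 (spec D φ hp hG hm t).1)]
  refine Finset.sum_congr rfl fun n _ => ?_
  rw [Finset.sum_mul]
  refine Finset.sum_congr rfl fun t ht => ?_
  rw [Finset.mem_filter] at ht
  rw [loops_eqG D φ t, pow_add, (spec D φ hp hG hm t).2, ht.2]
  ring

theorem cover_formG [Finite P] [Nonempty P] [Finite G] {p k : ℕ} [hp : Fact p.Prime] (hp2 : p ≠ 2)
    (hG : Nat.card G = p ^ k) (hm : Nat.card {e // φ e ≠ 1} < p) :
    red p (dl * (regCover s D φ).fPoly) =
      ∑ n ∈ range (p ^ k), (red p (UG D φ n)) ^ (p ^ k) * (dF (ZMod p)) ^ n := by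
  classical
  have : Fintype G := Fintype.ofFinite G
  have hcard : Fintype.card G = p ^ k := by rw [← Nat.card_eq_fintype_card, hG]
  have hodd : Odd (p ^ k) := (hp.out.odd_of_ne_two hp2).pow
  have hev : Even (regCover s D φ).writhe ↔ Even D.writhe := by
    rw [writhe_coverG, Int.even_mul, hcard]
    have h3 : ¬ Even ((p ^ k : ℕ) : ℤ) := by
      rw [Int.not_even_iff_odd]
      exact_mod_cast hodd
    constructor
    · rintro (h4 | h4)
      · exact absurd h4 h3
      · exact h4
    · exact fun h4 => Or.inr h4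
  rw [fPoly_eq, bracket_coverG, map_mul, map_mul, red_sE, red_T, map_sum, sE_congr _ hev,
    writhe_coverG, hcard]
  have h1 : ∑ S : G → Fin D.crossings.length → Bool,
      red p (T (∑ g, Diagram.weight (S g)) * dl ^ lpG D φ S) =
      ∑ t : Fin D.crossings.length → Bool, (T (Diagram.weight t) * dF (ZMod p) ^ zsG D φ t) ^ (p ^ k) *
        dF (ZMod p) ^ jsG D φ t := by
    rw [sum_group p (IsPGroup.of_card hG) (fun S : G → Fin D.crossings.length → Bool =>
      red p (T (∑ g, Diagram.weight (S g)) * dl ^ lpG D φ S))]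
    · refine Finset.sum_congr rfl fun t _ => ?_
      rw [lpG_const D φ, map_mul, red_T, map_pow, red_dl, Finset.sum_const, Finset.card_univ,
        hcard, hG, mul_pow, T_pow, pow_add, pow_mul, nsmul_eq_mul, ← pow_mul, ← pow_mul,
        mul_comm (p ^ k) (zsG D φ t)]
      ring
    · intro h S
      have h2 : ∑ g, Diagram.weight (S (h * g)) = ∑ g, Diagram.weight (S g) :=
        Equiv.sum_comp (Equiv.mulLeft h) (fun g => Diagram.weight (S g))
      simp only [lpG_mul, h2]
  rw [h1, ← Finset.sum_fiberwise_of_maps_to (s := univ) (t := range (p ^ k)) (g := fun t => jsG D φ t)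
    (fun t _ => Finset.mem_range.2 (spec D φ hp.out hG hm t).1), Finset.mul_sum]
  refine Finset.sum_congr rfl fun n _ => ?_
  unfold UG
  rw [map_mul, map_mul, red_sE, red_T, map_sum, mul_pow, mul_pow, sE_pow _ _ hodd, T_pow,
    sum_pow_char_pow, mul_assoc, mul_assoc, mul_assoc, Finset.sum_mul]
  have h2 : ((p ^ k : ℕ) : ℤ) * -(3 * D.writhe) = -(3 * (((p ^ k : ℕ) : ℤ) * D.writhe)) := by ring
  rw [h2]
  congr 2
  refine Finset.sum_congr rfl fun t ht => ?_
  rw [Finset.mem_filter] at ht
  rw [map_mul, red_T, map_pow, red_dl, ht.2]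

theorem res2_UG [Finite P] (p : ℕ) [Fact p.Prime] (n : ℕ) : Res2 (red p (UG D φ n)) 0 := by
  unfold UG
  rw [map_mul, map_mul, red_sE, red_T, map_sum]
  obtain ⟨m, hm⟩ := writhe_par D
  have h1 : Res2 (∑ t ∈ univ.filter (fun t : Fin D.crossings.length → Bool => jsG D φ t = n),
      red p (T (Diagram.weight t) * dl ^ zsG D φ t)) (D.crossings.length : ℤ) := by
    apply Res2.sum
    intro t _
    rw [map_mul, red_T, map_pow, red_dl]
    obtain ⟨m', hm'⟩ := weight_par t
    exact ((res2_T _).mul ((res2_dF p).pow _)).congr ⟨m', by rw [hm']; ring⟩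
  have h2 : Res2 (sE (ZMod p) D.writhe) 0 := by
    unfold sE
    split_ifs
    · exact (res2_T (R := ZMod p) 0).congr ⟨0, by ring⟩
    · intro c hc
      have h3 := (res2_T (R := ZMod p) 0) c (by
        intro h4
        apply hc
        rw [AddMonoidAlgebra.coeff_neg, Finsupp.neg_apply]
        have : (1 : (ZMod p)[T;T⁻¹]) = T 0 := T_zero.symm
        rw [this, h4, neg_zero])
      exact h3
  exact ((h2.mul (res2_T _)).mul h1).congr ⟨-D.writhe - m, by rw [hm]; ring⟩

/-- constants of small degree -/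
theorem alg_small (p : ℕ) [hp : Fact p.Prime] {q N : ℕ} (hq0 : q ≠ 0)
    (u : ℕ → (ZMod p)[T;T⁻¹]) (hu : ∀ n ∈ range N, ∃ c : ZMod p, u n = C c)
    (h : ∀ c : ℤ, 2 * (p : ℤ) ≤ |c| →
      (∑ n ∈ range N, (u n) ^ q * (dF (ZMod p)) ^ n).coeff c = 0) :
    ∀ n ∈ range N, p ≤ n → u n = 0 := by
  intro n0 hn0 hpn
  by_contra hne0
  have hcon : ∀ n ∈ range N, (u n) ^ q * (dF (ZMod p)) ^ n = 0 ∨
      Top ((u n) ^ q * (dF (ZMod p)) ^ n) (n * 2) := by
    intro n hn
    obtain ⟨c, hc⟩ := hu n hn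
    by_cases h0 : c = 0
    · left
      rw [hc, h0, map_zero, zero_pow hq0, zero_mul]
    · right
      have h1 : Top (C c : (ZMod p)[T;T⁻¹]) 0 := by
        have := top_C h0 (0 : ℤ)
        rwa [T_zero, mul_one] at this
      have h2 := (h1.pow q).mul (top_dF (F := ZMod p) |>.pow n)
      rw [hc]
      have h3 : (q : ℤ) * 0 + n * 2 = n * 2 := by ring
      rw [h3] at h2
      exact h2
  have hz : (u n0) ^ q * (dF (ZMod p)) ^ n0 ≠ 0 :=
    mul_ne_zero (pow_ne_zero _ hne0) (pow_ne_zero _ top_dF.ne_zero)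
  obtain ⟨c1, h1, h2⟩ := sum_top (range N) (fun n => (u n) ^ q * (dF (ZMod p)) ^ n)
    (fun n => (n : ℤ) * 2) hcon (by
      intro i _ j _ _ _ hij
      have h4 : (i : ℤ) * 2 = j * 2 := hij
      omega) hn0 hz
  have h1' : (n0 : ℤ) * 2 ≤ c1 := h1
  have h3 : 2 * (p : ℤ) ≤ c1 := by
    have : (p : ℤ) ≤ n0 := by exact_mod_cast hpn
    linarith
  exact h2 (h c1 (le_trans h3 (le_abs_self c1)))

theorem cover_eqG [Finite P] [Nonempty P] [Finite G] {p k : ℕ} [hp : Fact p.Prime] (hp2 : p ≠ 2)
    (hk : 1 ≤ k) (hG : Nat.card G = p ^ k) (hm : Nat.card {e // φ e ≠ 1} < p)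
    (hf : ∀ n : ℤ, 2 * (p : ℤ) - 2 ≤ |n| → (p : ℤ) ∣ (regCover s D φ).fPoly.coeff n) :
    red p (regCover s D φ).fPoly = red p D.fPoly := by
  have hpq : p ≤ p ^ k := Nat.le_self_pow (by omega) p
  have h2 := hp.out.two_le
  have hcf : ∀ c : ℤ, 2 * (p : ℤ) ≤ |c| →
      (∑ n ∈ range (p ^ k), (red p (UG D φ n)) ^ (p ^ k) * (dF (ZMod p)) ^ n).coeff c = 0 := by
    intro c hc
    rw [← cover_formG s D φ hp2 hG hm, red_cf, dl_coeff]
    have h3 : (p : ℤ) ∣ -((regCover s D φ).fPoly.coeff (c - 2)) - (regCover s D φ).fPoly.coeff (c + 2) := by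
      apply dvd_sub
      · apply dvd_neg.2
        apply hf
        have := abs_sub_abs_le_abs_sub c 2
        have h4 : |(2 : ℤ)| = 2 := by norm_num
        omega
      · apply hf
        have := abs_sub_abs_le_abs_sub c (-2)
        have h4 : |(-2 : ℤ)| = 2 := by norm_num
        have h5 : c - -2 = c + 2 := by ring
        rw [h5] at this
        omega
    exact (ZMod.intCast_zmod_eq_zero_iff_dvd _ p).2 h3
  have hpqz : (p : ℤ) ≤ ((p ^ k : ℕ) : ℤ) := by exact_mod_cast hpq
  have hconst := alg_const p (q := p ^ k) (N := p ^ k) (by omega) le_rfl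
    (fun n => red p (UG D φ n)) (res2_UG D φ p) (fun c hc => hcf c (by linarith))
  have hsmall := alg_small p (q := p ^ k) (N := p ^ k) (by omega)
    (fun n => red p (UG D φ n)) hconst hcf
  have h1 : red p (dl * (regCover s D φ).fPoly) = red p (dl * D.fPoly) := by
    rw [cover_formG s D φ hp2 hG hm, base_formG D φ hp.out hG hm, map_sum]
    refine Finset.sum_congr rfl fun n hn => ?_
    rw [map_mul, map_pow, red_dl]
    rcases Nat.lt_or_ge n p with h3 | h3
    · obtain ⟨c, hc⟩ := hconst n hn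
      rw [hc, eps_lt h3, ← map_pow, ZMod.pow_card_pow]
    · have h4 := hsmall n hn h3
      rw [h4, zero_pow (by omega), zero_mul, zero_mul]
  rw [map_mul, map_mul, red_dl] at h1
  exact mul_left_cancel₀ top_dF.ne_zero h1

end main

section closed

variable {P G : Type} [DecidableEq P] [DecidableEq G]

theorem cntG (q : ℕ) {n : ℕ} (a : Fin n → P) (b : Fin n → Fin q → G)
    (hb : ∀ i, Function.Bijective (b i)) (x : P) (g : G) :
    ct (x, g) (List.ofFn (fun i : Fin (q * n) => (a i.modNat, b i.modNat i.divNat))) =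
      ct x (List.ofFn a) := by
  rw [ct_eq_sum, ct_eq_sum, List.map_ofFn, List.map_ofFn, List.sum_ofFn, List.sum_ofFn,
    ← Equiv.sum_comp finProdFinEquiv, Fintype.sum_prod_type, Finset.sum_comm]
  refine Finset.sum_congr rfl fun i _ => ?_
  have h1 : ∀ j : Fin q, ((fun z : P × G => if z = (x, g) then (1 : ℕ) else 0) ∘
      (fun i : Fin (q * n) => (a i.modNat, b i.modNat i.divNat))) (finProdFinEquiv (j, i)) =
      if a i = x ∧ b i j = g then 1 else 0 := by
    intro j
    have h4 : (finProdFinEquiv (j, i)).divNat = j :=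
      congrArg Prod.fst (finProdFinEquiv.symm_apply_apply (j, i))
    have h5 : (finProdFinEquiv (j, i)).modNat = i :=
      congrArg Prod.snd (finProdFinEquiv.symm_apply_apply (j, i))
    simp only [Function.comp_apply, h4, h5, Prod.mk.injEq]
  rw [Finset.sum_congr rfl (fun j _ => h1 j)]
  show _ = if a i = x then 1 else 0
  obtain ⟨j0, hj0⟩ := (hb i).2 g
  rw [Finset.sum_eq_single j0]
  · simp [hj0]
  · intro j _ hj
    rw [if_neg]
    rintro ⟨_, h⟩
    exact hj ((hb i).1 (h.trans hj0.symm))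
  · intro h
    exact absurd (Finset.mem_univ _) h

variable [Group G] {q : ℕ} (s : Fin q ≃ G) (D : Diagram P) (φ : Fin D.arcs.length → G)

theorem cnt_arcs_fstG (x : P) (g : G) :
    ct (x, g) ((regCover s D φ).arcs.map Prod.fst) = ct x (D.arcs.map Prod.fst) := by
  rw [map_get D.arcs, ← cntG q (fun i : Fin D.arcs.length => (D.arcs[i]).1)
    (fun _ j => s j) (fun _ => s.bijective) x g]
  congr 1
  show (List.ofFn _).map _ = _
  rw [List.map_ofFn]
  rfl

theorem cnt_arcs_sndG (x : P) (g : G) :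
    ct (x, g) ((regCover s D φ).arcs.map Prod.snd) = ct x (D.arcs.map Prod.snd) := by
  rw [map_get D.arcs, ← cntG q (fun i : Fin D.arcs.length => (D.arcs[i]).2)
    (fun i j => s j * φ i) (fun i => (Equiv.mulRight (φ i)).bijective.comp s.bijective) x g]
  congr 1
  show (List.ofFn _).map _ = _
  rw [List.map_ofFn]
  rfl

theorem cnt_crG (f : ∀ {Q : Type}, Crossing Q → Q)
    (hf : ∀ (g : P → P × G) (c : Crossing P), f (c.map g) = g (f c)) (x : P) (g : G) :
    ct (x, g) ((regCover s D φ).crossings.map f) = ct x (D.crossings.map f) := by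
  rw [map_get D.crossings, ← cntG q (fun i : Fin D.crossings.length => f (D.crossings[i]))
    (fun _ j => s j) (fun _ => s.bijective) x g]
  congr 1
  show (List.ofFn _).map _ = _
  rw [List.map_ofFn]
  congr 1
  funext i
  exact hf _ _

theorem cover_closedG (h : D.IsClosed) : (regCover s D φ).IsClosed := by
  rintro ⟨x, g⟩
  obtain ⟨h1, h2⟩ := h x
  unfold Diagram.starts at h1 ⊢
  unfold Diagram.ends at h2 ⊢
  change ct x _ = 1 at h1
  change ct x _ = 1 at h2
  show ct (x, g) _ = 1 ∧ ct (x, g) _ = 1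
  rw [ct_append, ct_append] at h1 h2 ⊢
  rw [ct_append, ct_append]
  rw [cnt_arcs_fstG, cnt_arcs_sndG,
    cnt_crG s D φ (fun {Q} (x : Crossing Q) => if x.underFwd then x.a else x.c)
      (fun g c => (apply_ite g _ _ _).symm),
    cnt_crG s D φ (fun {Q} (x : Crossing Q) => if x.overFwd then x.b else x.d)
      (fun g c => (apply_ite g _ _ _).symm),
    cnt_crG s D φ (fun {Q} (x : Crossing Q) => if x.underFwd then x.c else x.a)
      (fun g c => (apply_ite g _ _ _).symm),
    cnt_crG s D φ (fun {Q} (x : Crossing Q) => if x.overFwd then x.d else x.b)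
      (fun g c => (apply_ite g _ _ _).symm)]
  exact ⟨h1, h2⟩

end closed

section thm

variable {P G : Type} [Group G] {q : ℕ} (s : Fin q ≃ G) (D : Diagram P) (φ : Fin D.arcs.length → G)

theorem mem_cover_crG (x : Crossing (P × G)) (hx : x ∈ (regCover s D φ).crossings) :
    ∃ c ∈ D.crossings, ∃ g : G, x = c.map (fun y => (y, g)) := by
  change x ∈ List.ofFn (fun i : Fin (q * D.crossings.length) => gCG D (s i.divNat) i.modNat) at hx
  rw [List.mem_ofFn] at hx
  obtain ⟨i, hi⟩ := hx
  refine ⟨D.crossings[i.modNat], List.getElem_mem _, s i.divNat, ?_⟩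
  rw [← hi]
  rfl

theorem cover_knotG (h : PK.IsKnot (regCover s D φ)) : PK.IsKnot D := by
  have key : ∀ a b : P × G, EqvGen (PK.Piece (regCover s D φ)) a b → EqvGen (PK.Piece D) a.1 b.1 := by
    intro a b hab
    induction hab with
    | rel a b h =>
      apply EqvGen.rel
      rcases h with h | ⟨x, hx, h⟩
      · left
        rw [mem_cover_arcsG] at h
        obtain ⟨e, h1, h2, _⟩ := h
        rw [mem_arcs]
        exact ⟨e, h1, h2⟩
      · right
        obtain ⟨c, hc, j, rfl⟩ := mem_cover_crG s D φ x hx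
        refine ⟨c, hc, ?_⟩
        rcases h with ⟨h1, h2⟩ | ⟨h1, h2⟩
        · left
          rw [h1, h2]
          exact ⟨rfl, rfl⟩
        · right
          rw [h1, h2]
          exact ⟨rfl, rfl⟩
    | refl a => exact EqvGen.refl _
    | symm a b _ ih => exact EqvGen.symm _ _ ih
    | trans a b c _ _ ih1 ih2 => exact EqvGen.trans _ _ _ ih1 ih2
  intro x y
  exact key (x, 1) (y, 1) (h _ _)

theorem arcs_le [Fintype P] [DecidableEq P] (h : D.IsClosed) :
    Nat.card {e // φ e ≠ 1} ≤ Fintype.card P := by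
  classical
  have h1 : (D.arcs.map Prod.fst).Nodup := by
    rw [List.nodup_iff_count_le_one]
    intro x
    have h2 := (h x).1
    unfold Diagram.starts at h2
    rw [List.count_append, List.count_append] at h2
    omega
  have h2 := h1.length_le_card
  rw [List.length_map] at h2
  refine le_trans ?_ h2
  have h3 := Nat.card_le_card_of_injective (Subtype.val : {e // φ e ≠ 1} → Fin D.arcs.length)
    Subtype.val_injective
  rwa [Nat.card_eq_fintype_card (α := Fin D.arcs.length), Fintype.card_fin] at h3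

theorem regCover_theorem [Fintype P] [DecidableEq P] [Nonempty P] [DecidableEq G]
    (p k : ℕ) (hp : p.Prime) (hp2 : p ≠ 2) (hk : 1 ≤ k) (hq : q = p ^ k) :
    (D.IsClosed → (regCover s D φ).IsClosed) ∧
    (PK.IsKnot (regCover s D φ) → PK.IsKnot D) ∧
    (Nat.card {e // φ e ≠ 1} < p →
      ((∀ n : ℤ, 2 * (p : ℤ) - 2 ≤ |n| → (p : ℤ) ∣ (regCover s D φ).fPoly.coeff n) →
        ∀ n, (p : ℤ) ∣ ((regCover s D φ).fPoly - D.fPoly).coeff n) ∧
      ((∀ n, (p : ℤ) ∣ ((regCover s D φ).fPoly - 1).coeff n) →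
        ∀ n, (p : ℤ) ∣ (D.fPoly - 1).coeff n)) ∧
    (D.IsClosed → ∀ B : ℕ, 2 ^ (D.crossings.length + Fintype.card P) + B < p →
      (∀ n : ℤ, 2 * (p : ℤ) - 2 ≤ |n| → (p : ℤ) ∣ (regCover s D φ).fPoly.coeff n) →
      (∀ n, |(regCover s D φ).fPoly.coeff n| ≤ B) → (regCover s D φ).fPoly = D.fPoly) ∧
    (D.IsClosed → 2 ^ (D.crossings.length + Fintype.card P) + 1 < p →
      (regCover s D φ).fPoly = 1 → D.fPoly = 1) := by
  have hpf : Fact p.Prime := ⟨hp⟩
  have hfin : Finite G := Finite.of_equiv _ s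
  have hG : Nat.card G = p ^ k := by
    rw [← hq, ← Nat.card_congr s, Nat.card_eq_fintype_card, Fintype.card_fin]
  have hp3 : 3 ≤ p := by
    have := hp.two_le
    omega
  have hlarge : ∀ n : ℤ, 2 * (p : ℤ) - 2 ≤ |n| → n ≠ 0 := by
    rintro n hn rfl
    rw [abs_zero] at hn
    omega
  have hclosed : D.IsClosed → 2 ^ (D.crossings.length + Fintype.card P) < p →
      Nat.card {e // φ e ≠ 1} < p := by
    intro h hb
    refine lt_of_le_of_lt (arcs_le D φ h) (lt_of_le_of_lt ?_ hb)
    exact le_trans Nat.lt_two_pow_self.le (Nat.pow_le_pow_right (by norm_num) (Nat.le_add_left _ _))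
  have part3 : D.IsClosed → ∀ B : ℕ, 2 ^ (D.crossings.length + Fintype.card P) + B < p →
      (∀ n : ℤ, 2 * (p : ℤ) - 2 ≤ |n| → (p : ℤ) ∣ (regCover s D φ).fPoly.coeff n) →
      (∀ n, |(regCover s D φ).fPoly.coeff n| ≤ B) → (regCover s D φ).fPoly = D.fPoly := by
    intro hcl B hB h hb
    have h1 := cover_eqG s D φ hp2 hk hG (hclosed hcl (by omega)) h
    rw [← sub_eq_zero]
    have h2 : Bd ((regCover s D φ).fPoly - D.fPoly) (B + 2 ^ (D.crossings.length + Fintype.card P)) := by
      rw [sub_eq_add_neg]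
      exact Bd.add hb (fPoly_bd D).neg
    refine eq_zero_of_red (p := p) h2 (by omega) ?_
    rw [map_sub, h1, sub_self]
  refine ⟨cover_closedG s D φ, cover_knotG s D φ, fun hm => ⟨fun h => ?_, fun h => ?_⟩, part3,
    fun hcl hbig h => ?_⟩
  · exact (red_eq_iff p _ _).1 (cover_eqG s D φ hp2 hk hG hm h)
  · have h1 : ∀ n : ℤ, 2 * (p : ℤ) - 2 ≤ |n| → (p : ℤ) ∣ (regCover s D φ).fPoly.coeff n := by
      intro n hn
      have h2 := h n
      rw [AddMonoidAlgebra.coeff_sub, Finsupp.sub_apply, one_coeff n (hlarge n hn), sub_zero] at h2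
      exact h2
    rw [← red_eq_iff] at h ⊢
    rw [← cover_eqG s D φ hp2 hk hG hm h1, h]
  · have h1 : (regCover s D φ).fPoly = D.fPoly := by
      refine part3 hcl 1 hbig ?_ ?_
      · intro n hn
        rw [h, one_coeff n (hlarge n hn)]
        exact dvd_zero _
      · intro n
        rw [h]
        exact bd_one n
    rw [← h1, h]

end thm

end Pool.Agent.TH561.VC
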