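import Mathlib

/-!
# The number of components of a cyclic cover of a graph
-/

set_option autoImplicit false

namespace Pool.Agent.TH561.VC

open Finset Relation

section graph

variable {P E : Type} (src tgt : E → P) (v : E → ℤ) (R : P → P → Prop)

/-- the relation of the base -/
def Bs (x y : P) : Prop := (∃ e, x = src e ∧ y = tgt e) ∨ R x y

/-- the relation of the cover -/
def Cv (q : ℕ) (x y : P × ZMod q) : Prop :=
  (∃ e, x.1 = src e ∧ y.1 = tgt e ∧ y.2 = x.2 + (v e : ZMod q)) ∨ (R x.1 y.1 ∧ y.2 = x.2)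

/-- there is a potential on the component of `x0` -/
def Pot (x0 : P) : Prop := ∃ H : P → ℤ,
  (∀ e, EqvGen (Bs src tgt R) x0 (src e) → H (tgt e) = H (src e) + v e) ∧
  ∀ x y, R x y → EqvGen (Bs src tgt R) x0 x → H y = H x

variable {src tgt v R}

theorem lift_path {q : ℕ} {x y : P} (h : EqvGen (Bs src tgt R) x y) :
    ∀ g : ZMod q, ∃ t, EqvGen (Cv src tgt v R q) (x, g) (y, t) := by
  induction h with
  | rel x y h =>
    intro g
    rcases h with ⟨e, h1, h2⟩ | h
    · exact ⟨g + v e, EqvGen.rel _ _ (Or.inl ⟨e, h1, h2, rfl⟩)⟩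
    · exact ⟨g, EqvGen.rel _ _ (Or.inr ⟨h, rfl⟩)⟩
  | refl x => exact fun g => ⟨g, EqvGen.refl _⟩
  | symm x y h ih =>
    intro g
    have hs : ∀ {a b : P × ZMod q} (t : ZMod q), EqvGen (Cv src tgt v R q) a b →
        EqvGen (Cv src tgt v R q) (a.1, a.2 + t) (b.1, b.2 + t) := by
      intro a b t hab
      induction hab with
      | rel a b h =>
        apply EqvGen.rel
        rcases h with ⟨e, h1, h2, h3⟩ | ⟨h, h3⟩
        · exact Or.inl ⟨e, h1, h2, by simp only [h3]; ring⟩
        · exact Or.inr ⟨h, by simp only [h3]⟩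
      | refl a => exact EqvGen.refl _
      | symm a b _ ih => exact EqvGen.symm _ _ ih
      | trans a b c _ _ ih1 ih2 => exact EqvGen.trans _ _ _ ih1 ih2
    obtain ⟨t, ht⟩ := ih 0
    refine ⟨g - t, EqvGen.symm _ _ ?_⟩
    have := hs (g - t) ht
    simp only [zero_add, add_sub_cancel] at this
    exact this
  | trans x y z _ _ ih1 ih2 =>
    intro g
    obtain ⟨t, ht⟩ := ih1 g
    obtain ⟨s, hs⟩ := ih2 t
    exact ⟨s, EqvGen.trans _ _ _ ht hs⟩

theorem shift_path {q : ℕ} {a b : P × ZMod q} (t : ZMod q) (hab : EqvGen (Cv src tgt v R q) a b) :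
    EqvGen (Cv src tgt v R q) (a.1, a.2 + t) (b.1, b.2 + t) := by
  induction hab with
  | rel a b h =>
    apply EqvGen.rel
    rcases h with ⟨e, h1, h2, h3⟩ | ⟨h, h3⟩
    · exact Or.inl ⟨e, h1, h2, by simp only [h3]; ring⟩
    · exact Or.inr ⟨h, by simp only [h3]⟩
  | refl a => exact EqvGen.refl _
  | symm a b _ ih => exact EqvGen.symm _ _ ih
  | trans a b c _ _ ih1 ih2 => exact EqvGen.trans _ _ _ ih1 ih2

theorem proj_path {q : ℕ} {a b : P × ZMod q} (hab : EqvGen (Cv src tgt v R q) a b) :
    EqvGen (Bs src tgt R) a.1 b.1 := by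
  induction hab with
  | rel a b h =>
    apply EqvGen.rel
    rcases h with ⟨e, h1, h2, _⟩ | ⟨h, _⟩
    · exact Or.inl ⟨e, h1, h2⟩
    · exact Or.inr h
  | refl a => exact EqvGen.refl _
  | symm a b _ ih => exact EqvGen.symm _ _ ih
  | trans a b c _ _ ih1 ih2 => exact EqvGen.trans _ _ _ ih1 ih2

/-- the sheet is determined by the potential -/
theorem pot_inv {q : ℕ} {x0 : P} {H : P → ℤ}
    (h1 : ∀ e, EqvGen (Bs src tgt R) x0 (src e) → H (tgt e) = H (src e) + v e)
    (h2 : ∀ x y, R x y → EqvGen (Bs src tgt R) x0 x → H y = H x)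
    {a b : P × ZMod q} (hab : EqvGen (Cv src tgt v R q) a b) (ha : EqvGen (Bs src tgt R) x0 a.1) :
    b.2 - (H b.1 : ZMod q) = a.2 - (H a.1 : ZMod q) := by
  induction hab with
  | rel a b h =>
    rcases h with ⟨e, h3, h4, h5⟩ | ⟨h, h5⟩
    · rw [h4, h5, h1 e (by rw [← h3]; exact ha), ← h3]
      push_cast
      ring
    · rw [h5, h2 _ _ h ha]
  | refl a => rfl
  | symm a b h ih =>
    exact (ih (EqvGen.trans _ _ _ ha (EqvGen.symm _ _ (proj_path h)))).symm
  | trans a b c h h' ih1 ih2 =>
    rw [ih2 (EqvGen.trans _ _ _ ha (proj_path h)), ih1 ha]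

/-- points with the same potential difference are joined -/
theorem pot_path {q : ℕ} {x0 : P} {H : P → ℤ}
    (h1 : ∀ e, EqvGen (Bs src tgt R) x0 (src e) → H (tgt e) = H (src e) + v e)
    (h2 : ∀ x y, R x y → EqvGen (Bs src tgt R) x0 x → H y = H x)
    {a b : P × ZMod q} (ha : EqvGen (Bs src tgt R) x0 a.1) (hab : EqvGen (Bs src tgt R) a.1 b.1)
    (h : b.2 - (H b.1 : ZMod q) = a.2 - (H a.1 : ZMod q)) : EqvGen (Cv src tgt v R q) a b := by
  obtain ⟨t, ht⟩ := lift_path (v := v) (q := q) hab a.2
  have h3 := pot_inv h1 h2 ht ha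
  simp only at h3
  have h4 : t = b.2 := by
    have : t = (b.2 - (H b.1 : ZMod q)) + (H b.1 : ZMod q) := by rw [h, ← h3]; ring
    rw [this]; ring
  rw [h4] at ht
  exact ht

/-- a potential modulo `p` can be lifted -/
theorem lift_pot (p : ℕ) [hp : Fact p.Prime] [Fintype E] (hv : ∑ e, (v e).natAbs < p) {x0 : P}
    {h : P → ZMod p}
    (h1 : ∀ e, EqvGen (Bs src tgt R) x0 (src e) → h (tgt e) = h (src e) + (v e : ZMod p))
    (h2 : ∀ x y, R x y → EqvGen (Bs src tgt R) x0 x → h y = h x) : Pot src tgt v R x0 := by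
  classical
  have : NeZero p := ⟨hp.out.ne_zero⟩
  -- an uncovered residue
  let U : Finset (ZMod p) := univ.biUnion fun e : E =>
    (range (v e).natAbs).image fun j : ℕ => (if 0 ≤ v e then h (src e) else h (tgt e)) + (j : ZMod p)
  have hU : U.card < Fintype.card (ZMod p) := by
    rw [ZMod.card]
    refine lt_of_le_of_lt (Finset.card_biUnion_le) (lt_of_le_of_lt ?_ hv)
    refine Finset.sum_le_sum fun e _ => ?_
    exact Finset.card_image_le.trans (by rw [card_range])
  obtain ⟨r, hr⟩ : ∃ r, r ∉ U := by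
    by_contra hcon
    push Not at hcon
    have : U = univ := Finset.eq_univ_of_forall hcon
    rw [this, Finset.card_univ] at hU
    exact lt_irrefl _ hU
  have key : ∀ (n : ℕ) (z : ZMod p), (∀ j : ℕ, j < n → z + (j : ZMod p) ≠ r) →
      ((z + (n : ZMod p) - r - 1).val : ℤ) = ((z - r - 1).val : ℤ) + n := by
    intro n z hz
    induction n with
    | zero => simp
    | succ n ih =>
      have ih := ih (fun j hj => hz j (by omega))
      have h3 : z + (n : ZMod p) - r - 1 ≠ -1 := by
        intro h4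
        apply hz n (by omega)
        linear_combination h4
      have h4 : (z + (n : ZMod p) - r - 1).val + 1 < p := by
        have h5 := ZMod.val_lt (z + (n : ZMod p) - r - 1)
        rcases Nat.lt_or_ge ((z + (n : ZMod p) - r - 1).val + 1) p with h6 | h6
        · exact h6
        · exfalso
          apply h3
          have h7 : (z + (n : ZMod p) - r - 1).val + 1 = p := by omega
          have h8 : (((z + (n : ZMod p) - r - 1).val + 1 : ℕ) : ZMod p) = 0 := by
            rw [h7]; exact ZMod.natCast_self p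
          rw [Nat.cast_add, ZMod.natCast_zmod_val, Nat.cast_one] at h8
          linear_combination h8
      have h5 : z + ((n + 1 : ℕ) : ZMod p) - r - 1 = (((z + (n : ZMod p) - r - 1).val + 1 : ℕ) : ZMod p) := by
        rw [Nat.cast_add ((z + (n : ZMod p) - r - 1).val), ZMod.natCast_zmod_val]
        push_cast
        ring
      rw [h5, ZMod.val_natCast_of_lt h4]
      push_cast
      linarith
  refine ⟨fun x => ((h x - r - 1).val : ℤ), ?_, ?_⟩
  · intro e he
    simp only
    have h3 : ∀ j : ℕ, j < (v e).natAbs → (if 0 ≤ v e then h (src e) else h (tgt e)) + (j : ZMod p) ≠ r := by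
      intro j hj heq
      apply hr
      rw [Finset.mem_biUnion]
      exact ⟨e, Finset.mem_univ _, Finset.mem_image.2 ⟨j, Finset.mem_range.2 hj, heq⟩⟩
    have h4 := key _ _ h3
    by_cases hpos : 0 ≤ v e
    · simp only [if_pos hpos] at h4
      have h5 : ((v e).natAbs : ℤ) = v e := by omega
      have h6 : (((v e).natAbs : ℕ) : ZMod p) = (v e : ZMod p) := by
        have := congrArg (fun z : ℤ => (z : ZMod p)) h5
        simpa using this
      rw [h6, ← h1 e he, h5] at h4
      exact h4
    · simp only [if_neg hpos] at h4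
      have h5 : ((v e).natAbs : ℤ) = -v e := by omega
      have h6 : (((v e).natAbs : ℕ) : ZMod p) = -(v e : ZMod p) := by
        have := congrArg (fun z : ℤ => (z : ZMod p)) h5
        simpa using this
      have h7 : h (tgt e) + -(v e : ZMod p) = h (src e) := by rw [h1 e he]; ring
      rw [h6, h7, h5] at h4
      linarith
  · intro x y hxy hx
    simp only
    rw [h2 x y hxy hx]

end graph

end Pool.Agent.TH561.VC
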