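import Pool.Agent.TH561.VC.Cover

/-!
# The normalised bracket of a cyclic cover modulo `p`
-/

set_option autoImplicit false

namespace Pool.Agent.TH561.VC

open Pool.Agent.H891R2.Jones Pool.Agent.TH561 Pool.Agent.TH561.PK Pool.Agent.TH561.FP
  Pool.Agent.TH561.AD Finset Relation LaurentPolynomial

section main

variable {P : Type} (q : ℕ) (D : Diagram P) (v : Fin D.arcs.length → ℤ)

theorem writhe_eq {Q : Type} (D' : Diagram Q) :
    D'.writhe = ∑ i : Fin D'.crossings.length, (D'.crossings[i]).sign :=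
  (Fin.sum_univ_fun_getElem D'.crossings Crossing.sign).symm

theorem writhe_cover : (cover q D v).writhe = q * D.writhe := by
  rw [writhe_eq, ← Equiv.sum_comp (ix q D v).symm, Fintype.sum_prod_type]
  have h1 : ∀ (j : Fin q) (i : Fin D.crossings.length),
      ((cover q D v).crossings[(ix q D v).symm (j, i)]).sign = (D.crossings[i]).sign := by
    intro j i
    rw [cross_get]
    have h5 : ix q D v ((ix q D v).symm (j, i)) = (j, i) := Equiv.apply_symm_apply _ _
    rw [h5]
    rfl
  simp only [h1]
  rw [Finset.sum_const, Finset.card_univ, Fintype.card_fin, nsmul_eq_mul, writhe_eq]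

theorem weight_par {n : ℕ} (s : Fin n → Bool) : ∃ m : ℤ, Diagram.weight s = n + 2 * m := by
  refine ⟨∑ i, if s i then 0 else -1, ?_⟩
  unfold Diagram.weight
  rw [Finset.mul_sum]
  have : (n : ℤ) = ∑ i : Fin n, (1 : ℤ) := by simp
  rw [this, ← Finset.sum_add_distrib]
  refine Finset.sum_congr rfl fun i _ => ?_
  split_ifs <;> norm_num

theorem writhe_par {Q : Type} (D' : Diagram Q) : ∃ m : ℤ, D'.writhe = D'.crossings.length + 2 * m := by
  refine ⟨∑ i : Fin D'.crossings.length, if (D'.crossings[i]).underFwd = (D'.crossings[i]).overFwd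
    then -1 else 0, ?_⟩
  rw [writhe_eq, Finset.mul_sum]
  have : (D'.crossings.length : ℤ) = ∑ i : Fin D'.crossings.length, (1 : ℤ) := by simp
  rw [this, ← Finset.sum_add_distrib]
  refine Finset.sum_congr rfl fun i _ => ?_
  unfold Crossing.sign
  split_ifs <;> norm_num

/-- the number of circles with a potential -/
noncomputable def zs (s : Fin D.crossings.length → Bool) : ℕ := zz (sr D) (tg D) v (Rs D s)

/-- the number of circles without a potential -/
noncomputable def es (s : Fin D.crossings.length → Bool) : ℕ := ee (sr D) (tg D) v (Rs D s)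

theorem loops_eq [Finite P] (s : Fin D.crossings.length → Bool) : D.loops s = zs D v s + es D v s := by
  unfold Diagram.loops zs es
  rw [joined_eq, card_base (sr D) (tg D) v (Rs D s)]

theorem es_le [Finite P] (s : Fin D.crossings.length → Bool) : es D v s ≤ ∑ e, (v e).natAbs :=
  ee_le

theorem zs_le [Fintype P] (s : Fin D.crossings.length → Bool) : zs D v s ≤ Fintype.card P := by
  have h1 := loops_eq D v s
  have h2 : D.loops s ≤ Nat.card P := by
    unfold Diagram.loops
    exact Nat.card_le_card_of_surjective (Quot.mk _) Quot.mk_surjective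
  rw [Nat.card_eq_fintype_card] at h2
  omega

theorem lp_const [Finite P] {p k : ℕ} [hp : Fact p.Prime] (hk : 1 ≤ k)
    (hv : ∑ e, (v e).natAbs < p) (s : Fin D.crossings.length → Bool) :
    lp (p ^ k) D v (fun _ => s) = p ^ k * zs D v s + es D v s := by
  have : NeZero (p ^ k) := ⟨pow_ne_zero _ hp.out.ne_zero⟩
  unfold lp zs es
  rw [js_const]
  exact card_cover hk hv

/-- the coefficients -/
noncomputable def UZ (n : ℕ) : ℤ[T;T⁻¹] :=
  sE ℤ D.writhe * T (-(3 * D.writhe)) *
    ∑ s ∈ univ.filter (fun s : Fin D.crossings.length → Bool => es D v s = n),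
      T (Diagram.weight s) * dl ^ zs D v s

theorem base_form [Finite P] [Nonempty P] {N : ℕ} (hN : ∑ e, (v e).natAbs < N) :
    dl * D.fPoly = ∑ n ∈ range N, UZ D v n * dl ^ n := by
  rw [fPoly_eq, dl_bracket]
  unfold UZ
  simp only [mul_assoc, ← Finset.mul_sum]
  congr 2
  rw [← Finset.sum_fiberwise_of_maps_to (s := univ) (t := range N) (g := fun s => es D v s)
    (fun s _ => Finset.mem_range.2 (lt_of_le_of_lt (es_le D v s) hN))]
  refine Finset.sum_congr rfl fun n _ => ?_
  rw [Finset.sum_mul]
  refine Finset.sum_congr rfl fun s hs => ?_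
  rw [Finset.mem_filter] at hs
  rw [loops_eq D v s, pow_add, hs.2]
  ring

theorem cover_form [Finite P] [Nonempty P] {p k : ℕ} [hp : Fact p.Prime] (hk : 1 ≤ k) (hp2 : p ≠ 2)
    (hv : ∑ e, (v e).natAbs < p) {N : ℕ} (hN : ∑ e, (v e).natAbs < N) :
    red p (dl * (cover (p ^ k) D v).fPoly) =
      ∑ n ∈ range N, (red p (UZ D v n)) ^ (p ^ k) * (dF (ZMod p)) ^ n := by
  have : NeZero (p ^ k) := ⟨pow_ne_zero _ hp.out.ne_zero⟩
  have hodd : Odd (p ^ k) := (hp.out.odd_of_ne_two hp2).pow
  have hev : Even (cover (p ^ k) D v).writhe ↔ Even D.writhe := by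
    rw [writhe_cover, Int.even_mul]
    have h3 : ¬ Even ((p ^ k : ℕ) : ℤ) := by
      rw [Int.not_even_iff_odd]
      exact_mod_cast hodd
    constructor
    · rintro (h4 | h4)
      · exact absurd h4 h3
      · exact h4
    · exact fun h4 => Or.inr h4
  rw [fPoly_eq, bracket_cover, map_mul, map_mul, red_sE, red_T, map_sum, sE_congr _ hev, writhe_cover]
  have h1 : ∑ S : Fin (p ^ k) → Fin D.crossings.length → Bool,
      red p (T (∑ j, Diagram.weight (S j)) * dl ^ lp (p ^ k) D v S) =
      ∑ s : Fin D.crossings.length → Bool, (T (Diagram.weight s) * dF (ZMod p) ^ zs D v s) ^ (p ^ k) *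
        dF (ZMod p) ^ es D v s := by
    rw [sum_seq p k (fun S : Fin (p ^ k) → Fin D.crossings.length → Bool =>
      red p (T (∑ j, Diagram.weight (S j)) * dl ^ lp (p ^ k) D v S))]
    · refine Finset.sum_congr rfl fun s _ => ?_
      rw [lp_const D v hk hv, map_mul, red_T, map_pow, red_dl, Finset.sum_const, Finset.card_univ,
        Fintype.card_fin, mul_pow, T_pow, pow_add, pow_mul, nsmul_eq_mul, ← pow_mul, ← pow_mul,
        mul_comm (p ^ k) (zs D v s)]
      ring
    · intro S
      have h2 : ∑ j, Diagram.weight ((S ∘ finRotate (p ^ k)) j) = ∑ j, Diagram.weight (S j) :=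
        Equiv.sum_comp (finRotate (p ^ k)) (fun j => Diagram.weight (S j))
      simp only [lp_rot, h2]
  rw [h1, ← Finset.sum_fiberwise_of_maps_to (s := univ) (t := range N) (g := fun s => es D v s)
    (fun s _ => Finset.mem_range.2 (lt_of_le_of_lt (es_le D v s) hN)), Finset.mul_sum]
  refine Finset.sum_congr rfl fun n _ => ?_
  unfold UZ
  rw [map_mul, map_mul, red_sE, red_T, map_sum, mul_pow, mul_pow, sE_pow _ _ hodd, T_pow,
    sum_pow_char_pow, mul_assoc, mul_assoc, mul_assoc, Finset.sum_mul]
  have h2 : ((p ^ k : ℕ) : ℤ) * -(3 * D.writhe) = -(3 * (((p ^ k : ℕ) : ℤ) * D.writhe)) := by ring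
  rw [h2]
  congr 2
  refine Finset.sum_congr rfl fun s hs => ?_
  rw [Finset.mem_filter] at hs
  rw [map_mul, red_T, map_pow, red_dl, hs.2]

theorem res2_UZ (p : ℕ) [Fact p.Prime] (n : ℕ) : Res2 (red p (UZ D v n)) 0 := by
  unfold UZ
  rw [map_mul, map_mul, red_sE, red_T, map_sum]
  obtain ⟨m, hm⟩ := writhe_par D
  have h1 : Res2 (∑ s ∈ univ.filter (fun s : Fin D.crossings.length → Bool => es D v s = n),
      red p (T (Diagram.weight s) * dl ^ zs D v s)) (D.crossings.length : ℤ) := by
    apply Res2.sum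
    intro s _
    rw [map_mul, red_T, map_pow, red_dl]
    obtain ⟨m', hm'⟩ := weight_par s
    exact ((res2_T _).mul ((res2_dF p).pow _)).congr ⟨m', by rw [hm']; ring⟩
  have h2 : Res2 (sE (ZMod p) D.writhe) 0 := by
    unfold sE
    split_ifs
    · exact (res2_T (R := ZMod p) 0).congr ⟨0, by ring⟩
    · intro c hc
      have h3 := (res2_T (R := ZMod p) 0) c (by
        intro h4
        apply hc
        rw [AddMonoidAlgebra.coeff_neg, Finsupp.neg_apply]
        have : (1 : (ZMod p)[T;T⁻¹]) = T 0 := T_zero.symm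
        rw [this, h4, neg_zero])
      exact h3
  exact ((h2.mul (res2_T _)).mul h1).congr ⟨-D.writhe - m, by rw [hm]; ring⟩

/-- the bound for the coefficients -/
theorem UZ_bd [Fintype P] (n : ℕ) :
    Bd (UZ D v n) (2 ^ (D.crossings.length + Fintype.card P)) := by
  unfold UZ
  rw [mul_assoc]
  refine (Bd.T_mul ?_ _).sE_mul _
  refine (Bd.sum _ _ (fun _ => 2 ^ Fintype.card P) (fun s _ => ?_)).mono ?_
  · exact ((bd_dl_pow _).T_mul _).mono (Nat.pow_le_pow_right (by norm_num) (zs_le D v s))
  · rw [Finset.sum_const, smul_eq_mul, pow_add]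
    refine Nat.mul_le_mul_right _ ?_
    refine (Finset.card_filter_le _ _).trans ?_
    rw [Finset.card_univ, Fintype.card_fun, Fintype.card_bool, Fintype.card_fin]

theorem fPoly_bd [Fintype P] : Bd D.fPoly (2 ^ (D.crossings.length + Fintype.card P)) := by
  have h1 : D.fPoly = sE ℤ D.writhe * (T (-(3 * D.writhe)) * D.bracket) := by
    unfold Diagram.fPoly sE
    have : (-3 * D.writhe) = -(3 * D.writhe) := by ring
    rw [this]
    ring
  rw [h1]
  refine (Bd.T_mul ?_ _).sE_mul _
  unfold Diagram.bracket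
  refine (Bd.sum _ _ (fun _ => 2 ^ Fintype.card P) (fun s _ => ?_)).mono ?_
  · refine ((bd_dl_pow _).T_mul _).mono (Nat.pow_le_pow_right (by norm_num) ?_)
    have h2 : D.loops s ≤ Nat.card P := by
      unfold Diagram.loops
      exact Nat.card_le_card_of_surjective (Quot.mk _) Quot.mk_surjective
    rw [Nat.card_eq_fintype_card] at h2
    omega
  · rw [Finset.sum_const, smul_eq_mul, pow_add, Finset.card_univ, Fintype.card_fun, Fintype.card_bool,
      Fintype.card_fin]

end main

end Pool.Agent.TH561.VC
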